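import Mathlib

/-!
# MP_542e45_an: the Rayleigh beam - heat transmission system, definitions

The two displacements `u` on `(0,L0)` and `y` on `(L0,L)` are glued to one function on `(0,L)`. The transmission
conditions `u = y`, `u_x = y_x` at `L0` and the boundary conditions say that the glued function is in `H²_0(0,L)`,
and it is given by its second derivative `p` (`p = u_xx` on `(0,L0)`, `p = y_xx` on `(L0,L)`). In the same way
the velocity `(u_t, y_t)` in `V_1 = H¹_0(0,L)` is given by its first derivative `q`. The temperature `θ` is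
extended by zero to `(L0,L)`.
-/

set_option autoImplicit false

open MeasureTheory Set Filter

namespace Pool.Agent.T2H75.RB

/-- the real Hilbert space `L²(0,L)` -/
noncomputable abbrev L2 (L : ℝ) := Lp ℝ 2 (volume.restrict (Ioc 0 L))

/-- the constants of the system -/
structure Par where
  (L0 L ρ0 ρ1 ρ2 α1 α2 β1 β2 κ γ : ℝ)

/-- the primitive `x ↦ ∫_0^x f` -/
noncomputable def J (f : ℝ → ℝ) (x : ℝ) : ℝ := ∫ s in (0:ℝ)..x, f s

/-- the coefficient with the value `a` on `(0,L0)` and `b` on `(L0,L)` -/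
noncomputable def pw (L0 a b x : ℝ) : ℝ := if x ≤ L0 then a else b

/-- triples `(p, q, θ)`: the second derivative of the displacement, the first derivative of the velocity, the
temperature (extended by zero) -/
abbrev State (c : Par) := L2 c.L × L2 c.L × L2 c.L

/-- The energy space: the displacement `J (J p)` is in `H²_0(0,L)`, the velocity `J q` is in `H¹_0(0,L)`, the
temperature vanishes on `(L0,L)`. -/
def InH (c : Par) (Φ : State c) : Prop :=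
  J Φ.1 c.L = 0 ∧ J (J Φ.1) c.L = 0 ∧ J Φ.2.1 c.L = 0 ∧ ∀ᵐ x, x ∈ Ioc c.L0 c.L → Φ.2.2 x = 0

/-- the energy -/
noncomputable def E (c : Par) (Φ : State c) : ℝ :=
  (1 / 2) * (∫ x in (0:ℝ)..c.L0, (c.ρ1 * (J Φ.2.1 x) ^ 2 + c.α1 * (Φ.2.1 x) ^ 2 + c.β1 * (Φ.1 x) ^ 2
      + c.ρ0 * (Φ.2.2 x) ^ 2)) +
  (1 / 2) * (∫ x in c.L0..c.L, (c.ρ2 * (J Φ.2.1 x) ^ 2 + c.α2 * (Φ.2.1 x) ^ 2 + c.β2 * (Φ.1 x) ^ 2))

/-- The beam equations and the transmission conditions, for `Φ = (p, q, θ)` and `Ψ = (p', q', b)`, `p = u_xx`,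
`q' = u_ttx` (and the same with `y`): `S` is the force `α u_ttx - β u_xxx - γ θ_x` (with the constants and functions of
the two sides). It is continuous at `L0` (fourth transmission condition) and `S_x = ρ u_tt` (beam equations);
`β u_xx + γ θ` is absolutely continuous on `(0,L)` with derivative `α u_ttx - S` (it is continuous at `L0`: third
transmission condition, `θ(L0) = 0`). -/
def Beam (c : Par) (Φ Ψ : State c) : Prop :=
  ∃ S : ℝ → ℝ, (∃ s0 : ℝ, ∀ x ∈ Icc 0 c.L, S x = s0 + ∫ s in (0:ℝ)..x, pw c.L0 c.ρ1 c.ρ2 s * J Ψ.2.1 s) ∧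
    ∃ g0 : ℝ, ∀ᵐ x, x ∈ Ioc 0 c.L → pw c.L0 c.β1 c.β2 x * Φ.1 x + c.γ * Φ.2.2 x =
      g0 + ∫ s in (0:ℝ)..x, (pw c.L0 c.α1 c.α2 s * Ψ.2.1 s - S s)

/-- The heat equation for `Φ = (p, q, θ)` and `Ψ = (p', q', b)`, `p' = u_txx`, `b = θ_t`: `θ` is in
`H²(0,L0) ∩ H¹_0(0,L0)`, and `η = θ_x` satisfies `κ η_x = ρ0 θ_t - γ u_txx`. -/
def Heat (c : Par) (Φ Ψ : State c) : Prop :=
  ∃ η : ℝ → ℝ, (∃ e0 : ℝ, ∀ x ∈ Icc 0 c.L0, η x = e0 + ∫ s in (0:ℝ)..x, (c.ρ0 * Ψ.2.2 s - c.γ * Ψ.1 s) / c.κ) ∧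
    (∫ s in (0:ℝ)..c.L0, η s = 0) ∧ ∀ᵐ x, x ∈ Ioc 0 c.L0 → Φ.2.2 x = ∫ s in (0:ℝ)..x, η s

/-- `Gen c Φ Ψ`: the state `Φ = (p, q, θ)` is in the domain of the generator and is mapped to
`Ψ = (p', q', b)`. Both are in the energy space, the velocity is in `H²_0(0,L)` with second derivative `p'` (that is
`q = u_tx` is the primitive of `p' = u_txx`; the condition `u_tx(L) = 0` is part of `InH c Ψ`), and the beam equations,
the transmission conditions and the heat equation hold. -/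
def Gen (c : Par) (Φ Ψ : State c) : Prop :=
  InH c Φ ∧ InH c Ψ ∧ (∀ᵐ x, x ∈ Ioc 0 c.L → Φ.2.1 x = J Ψ.1 x) ∧ Beam c Φ Ψ ∧ Heat c Φ Ψ

/-- A classical solution `t ↦ Φ t` for `t ≥ 0` (with time derivative `Ψ t` in the energy space): for
`Φ 0` in the domain of the generator these are the orbits of the semigroup. -/
def IsSol (c : Par) (Φ Ψ : ℝ → State c) : Prop :=
  ContinuousOn Φ (Ici 0) ∧ ∀ t : ℝ, 0 ≤ t → Gen c (Φ t) (Ψ t) ∧ HasDerivWithinAt Φ (Ψ t) (Ici t) t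

/-! ### The special constants and the Lyapunov functional -/

/-- all constants are one except `ρ1`, `ρ2` and `L0 = 4095/4096` -/
noncomputable def par (ρ1 ρ2 : ℝ) : Par := ⟨4095 / 4096, 1, 1, ρ1, ρ2, 1, 1, 1, 1, 1, 1⟩

/-- the density `ρ` -/
noncomputable def rh (ρ1 ρ2 x : ℝ) : ℝ := pw (4095 / 4096) ρ1 ρ2 x

/-- multiplier: slope `1/2047` on `(0, 2047/2048)`, slope `-1` on `(2047/2048, 1)`, zero at `0` and `1` -/
noncomputable def hh (x : ℝ) : ℝ := if x ≤ 2047 / 2048 then x / 2047 else 1 - x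

/-- multiplier `1 - 2x` -/
noncomputable def mm (x : ℝ) : ℝ := 1 - 2 * x

/-- cut-off: one on `(0, 2047/2048)`, zero on `(4095/4096, 1)`, linear in between -/
noncomputable def chi (x : ℝ) : ℝ := if x ≤ 2047 / 2048 then 1 else if x ≤ 4095 / 4096 then 4096 * (4095 / 4096 - x) else 0

/-- the Lyapunov functional, for functions -/
noncomputable def LamF (ρ1 ρ2 : ℝ) (p q θ : ℝ → ℝ) : ℝ :=
  16384 * ((∫ x in (0:ℝ)..1, rh ρ1 ρ2 x * J q x * J q x) + (∫ x in (0:ℝ)..1, q x * q x) +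
      (∫ x in (0:ℝ)..1, p x * p x) + (∫ x in (0:ℝ)..1, θ x * θ x)) +
  (1 / 16) * ((∫ x in (0:ℝ)..1, rh ρ1 ρ2 x * J q x * J (J p) x) + (∫ x in (0:ℝ)..1, q x * J p x)) -
  2 * (∫ x in (0:ℝ)..1, hh x * q x * p x) +
  (1 / 1024) * (∫ x in (0:ℝ)..1, mm x * q x * p x) +
  (∫ x in (0:ℝ)..1, chi x * θ x * J q x)

/-- its derivative in the direction `(p', q', θ')`, for functions -/
noncomputable def dLamF (ρ1 ρ2 : ℝ) (p q θ p' q' θ' : ℝ → ℝ) : ℝ :=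
  32768 * ((∫ x in (0:ℝ)..1, rh ρ1 ρ2 x * J q x * J q' x) + (∫ x in (0:ℝ)..1, q x * q' x) +
      (∫ x in (0:ℝ)..1, p x * p' x) + (∫ x in (0:ℝ)..1, θ x * θ' x)) +
  (1 / 16) * ((∫ x in (0:ℝ)..1, rh ρ1 ρ2 x * J q' x * J (J p) x) + (∫ x in (0:ℝ)..1, rh ρ1 ρ2 x * J q x * J (J p') x)
      + (∫ x in (0:ℝ)..1, q' x * J p x) + (∫ x in (0:ℝ)..1, q x * J p' x)) -
  2 * ((∫ x in (0:ℝ)..1, hh x * q' x * p x) + (∫ x in (0:ℝ)..1, hh x * q x * p' x)) +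
  (1 / 1024) * ((∫ x in (0:ℝ)..1, mm x * q' x * p x) + (∫ x in (0:ℝ)..1, mm x * q x * p' x)) +
  ((∫ x in (0:ℝ)..1, chi x * θ' x * J q x) + (∫ x in (0:ℝ)..1, chi x * θ x * J q' x))

/-- PACKAGE A (to prove): along a curve in the state space, differentiable from the right, `LamF` is continuous and has the right derivative
`dLamF`. -/
def AStmt : Prop := ∀ ρ1 ρ2 : ℝ, ∀ Φ Ψ : ℝ → State (par ρ1 ρ2),
  ContinuousOn Φ (Ici 0) → (∀ t, 0 ≤ t → HasDerivWithinAt Φ (Ψ t) (Ici t) t) →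
    ContinuousOn (fun t => LamF ρ1 ρ2 (Φ t).1 (Φ t).2.1 (Φ t).2.2) (Ici 0) ∧
    ∀ t, 0 ≤ t → HasDerivWithinAt (fun t => LamF ρ1 ρ2 (Φ t).1 (Φ t).2.1 (Φ t).2.2)
      (dLamF ρ1 ρ2 (Φ t).1 (Φ t).2.1 (Φ t).2.2 (Ψ t).1 (Ψ t).2.1 (Ψ t).2.2) (Ici t) t

/-! ### The static data -/

/-- `f` is absolutely continuous on `[a,b]` with derivative `F` -/
def AC (a b : ℝ) (f F : ℝ → ℝ) : Prop :=
  AbsolutelyContinuousOnInterval f a b ∧ IntervalIntegrable F volume a b ∧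
    ∀ᵐ x, x ∈ Icc a b → HasDerivAt f (F x) x

/-- the function `η` on `(0, L0)`, extended by zero -/
noncomputable def cut (η : ℝ → ℝ) (x : ℝ) : ℝ := if x ≤ 4095 / 4096 then η x else 0

/-- All functions that belong to an element of the domain of the generator: `p, q, θ` are the absolutely continuous
representatives; `u = J J p`, `z = J p`, `v = J q`, `a = J q'`. -/
structure Dat (ρ1 ρ2 : ℝ) (p q θ p' q' b u z v a S η : ℝ → ℝ) : Prop where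
  hρ1 : 0 < ρ1 ∧ ρ1 ≤ 1
  hρ2 : 0 < ρ2 ∧ ρ2 ≤ 1
  hu : AC 0 1 u z
  hz : AC 0 1 z p
  hv : AC 0 1 v q
  ha : AC 0 1 a q'
  hq : AC 0 1 q p'
  hp : AC 0 1 p (fun x => q' x - S x - cut η x)
  hθ : AC 0 1 θ (cut η)
  hS : AC 0 1 S (fun x => rh ρ1 ρ2 x * a x)
  hη : AC 0 (4095 / 4096) η (fun x => b x - p' x)
  bu : u 0 = 0 ∧ u 1 = 0
  bz : z 0 = 0 ∧ z 1 = 0
  bv : v 0 = 0 ∧ v 1 = 0
  ba : a 0 = 0 ∧ a 1 = 0
  bq : q 0 = 0 ∧ q 1 = 0
  bθ : θ 0 = 0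
  bθ0 : ∀ x ∈ Icc (4095 / 4096 : ℝ) 1, θ x = 0
  bb : ∀ᵐ x, x ∈ Ioc (4095 / 4096 : ℝ) 1 → b x = 0
  lp' : MemLp p' 2 (volume.restrict (Ioc 0 1))
  lq' : MemLp q' 2 (volume.restrict (Ioc 0 1))
  lb : MemLp b 2 (volume.restrict (Ioc 0 1))

/-- PACKAGE B (to prove): the static data of an element of the domain. -/
def BStmt : Prop := ∀ ρ1 ρ2 : ℝ, 0 < ρ1 → ρ1 ≤ 1 → 0 < ρ2 → ρ2 ≤ 1 → ∀ Φ Ψ : State (par ρ1 ρ2),
  Gen (par ρ1 ρ2) Φ Ψ → ∃ p q θ S η : ℝ → ℝ,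
    (∀ᵐ x, x ∈ Ioc (0:ℝ) 1 → Φ.1 x = p x) ∧ (∀ᵐ x, x ∈ Ioc (0:ℝ) 1 → Φ.2.1 x = q x) ∧
    (∀ᵐ x, x ∈ Ioc (0:ℝ) 1 → Φ.2.2 x = θ x) ∧
    Dat ρ1 ρ2 p q θ Ψ.1 Ψ.2.1 Ψ.2.2 (J (J p)) (J p) (J q) (J Ψ.2.1) S η

end Pool.Agent.T2H75.RB
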