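import Mathlib
import Pool.Agent.T2H75.RB.Defs

/-!
# MP_542e45_an, package A: the derivative of the Lyapunov functional along a curve
-/

set_option autoImplicit false

open MeasureTheory Set Filter

namespace Pool.Agent.T2H75.RB

noncomputable section

instance instProb : IsProbabilityMeasure (volume.restrict (Ioc (0 : ℝ) 1)) := ⟨by simp⟩

theorem fint (f : L2 1) : Integrable f (volume.restrict (Ioc (0 : ℝ) 1)) :=
  (Lp.memLp f).integrable one_le_two

theorem ii (f : L2 1) {x : ℝ} (h0 : 0 ≤ x) (h1 : x ≤ 1) : IntervalIntegrable f volume 0 x := by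
  rw [intervalIntegrable_iff_integrableOn_Ioc_of_le h0]
  exact (show IntegrableOn f (Ioc 0 1) volume from fint f).mono_set (Ioc_subset_Ioc_right h1)

theorem J_le (f : L2 1) {x : ℝ} (h0 : 0 ≤ x) (h1 : x ≤ 1) : |J f x| ≤ ‖f‖ := by
  have e1 : |J f x| ≤ ∫ s in Ioc 0 x, ‖f s‖ := by
    unfold J
    rw [intervalIntegral.integral_of_le h0]
    exact norm_integral_le_integral_norm (μ := volume.restrict (Ioc 0 x)) (f : ℝ → ℝ)
  have e2 : ∫ s in Ioc 0 x, ‖f s‖ ≤ ∫ s in Ioc 0 1, ‖f s‖ :=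
    setIntegral_mono_set (show IntegrableOn (fun s => ‖f s‖) (Ioc 0 1) volume from (fint f).norm)
      (ae_of_all _ fun _ => norm_nonneg _)
      (LE.le.eventuallyLE (Ioc_subset_Ioc_right h1))
  have e3 : ∫ s in Ioc 0 1, ‖f s‖ = (eLpNorm f 1 (volume.restrict (Ioc (0 : ℝ) 1))).toReal := by
    rw [eLpNorm_one_eq_lintegral_enorm,
      integral_norm_eq_lintegral_enorm (Lp.aestronglyMeasurable f)]
  have e4 : (eLpNorm f 1 (volume.restrict (Ioc (0 : ℝ) 1))).toReal ≤ ‖f‖ := by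
    rw [Lp.norm_def]
    exact ENNReal.toReal_mono (Lp.eLpNorm_ne_top f)
      (eLpNorm_le_eLpNorm_of_exponent_le one_le_two (Lp.aestronglyMeasurable f))
  linarith

theorem J_memLp (f : L2 1) : MemLp (J f) 2 (volume.restrict (Ioc (0 : ℝ) 1)) := by
  have hc : ContinuousOn (J f) (Icc 0 1) := by
    have h := intervalIntegral.continuousOn_primitive_interval (μ := volume) (f := f) (a := 0)
      (b := 1) (by
        rw [uIcc_of_le zero_le_one, integrableOn_Icc_iff_integrableOn_Ioc]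
        exact fint f)
    rw [uIcc_of_le zero_le_one] at h
    exact h
  refine MemLp.of_bound ((hc.mono Ioc_subset_Icc_self).aestronglyMeasurable measurableSet_Ioc) ‖f‖ ?_
  refine (ae_restrict_iff' measurableSet_Ioc).2 (ae_of_all _ fun x hx => ?_)
  exact J_le f hx.1.le hx.2

theorem ae_Ioc {p : ℝ → Prop} (h : ∀ᵐ x ∂(volume.restrict (Ioc (0 : ℝ) 1)), p x) {x : ℝ}
    (h1 : x ≤ 1) : ∀ᵐ s, s ∈ Ioc 0 x → p s := by
  rw [ae_restrict_iff' measurableSet_Ioc] at h
  filter_upwards [h] with s hs h2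
  exact hs ⟨h2.1, h2.2.trans h1⟩

theorem J_congr {f g : ℝ → ℝ} (h : f =ᵐ[volume.restrict (Ioc (0 : ℝ) 1)] g) {x : ℝ} (h0 : 0 ≤ x)
    (h1 : x ≤ 1) : J f x = J g x := by
  unfold J
  refine intervalIntegral.integral_congr_ae ?_
  rw [uIoc_of_le h0]
  exact ae_Ioc h h1

theorem toLp_ae {F : ℝ → ℝ} (h : MemLp F 2 (volume.restrict (Ioc (0 : ℝ) 1))) :
    (h.toLp F : ℝ → ℝ) =ᵐ[volume.restrict (Ioc (0 : ℝ) 1)] F := h.coeFn_toLp

theorem ae_of_Ioc {p : ℝ → Prop} (h : ∀ x ∈ Ioc (0 : ℝ) 1, p x) :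
    ∀ᵐ x ∂(volume.restrict (Ioc (0 : ℝ) 1)), p x :=
  (ae_restrict_iff' measurableSet_Ioc).2 (ae_of_all _ h)

/-- the Volterra operator -/
theorem exV : ∃ V : L2 1 →L[ℝ] L2 1, ∀ f : L2 1,
    (V f : ℝ → ℝ) =ᵐ[volume.restrict (Ioc (0 : ℝ) 1)] J f := by
  refine ⟨LinearMap.mkContinuous
    { toFun := fun f => (J_memLp f).toLp (J f)
      map_add' := fun f g => ?_
      map_smul' := fun c f => ?_ } 1 fun f => ?_, fun f => (J_memLp f).coeFn_toLp⟩
  · refine Lp.ext ?_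
    have a1 : ∀ᵐ x ∂(volume.restrict (Ioc (0 : ℝ) 1)), J (f + g : L2 1) x = J f x + J g x := by
      refine ae_of_Ioc fun x hx => ?_
      rw [J_congr (Lp.coeFn_add f g) hx.1.le hx.2]
      exact intervalIntegral.integral_add (ii f hx.1.le hx.2) (ii g hx.1.le hx.2)
    filter_upwards [(J_memLp (f + g)).coeFn_toLp, (J_memLp f).coeFn_toLp, (J_memLp g).coeFn_toLp,
      Lp.coeFn_add ((J_memLp f).toLp (J f)) ((J_memLp g).toLp (J g)), a1] with x b1 b2 b3 b4 b5
    rw [b1, b4, Pi.add_apply, b2, b3, b5]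
  · refine Lp.ext ?_
    have a1 : ∀ᵐ x ∂(volume.restrict (Ioc (0 : ℝ) 1)), J (c • f : L2 1) x = c * J f x := by
      refine ae_of_Ioc fun x hx => ?_
      rw [J_congr (Lp.coeFn_smul c f) hx.1.le hx.2]
      exact intervalIntegral.integral_const_mul c _
    filter_upwards [(J_memLp (c • f)).coeFn_toLp, (J_memLp f).coeFn_toLp,
      Lp.coeFn_smul c ((J_memLp f).toLp (J f)), a1] with x b1 b2 b3 b4
    rw [b1, RingHom.id_apply, b3, Pi.smul_apply, b2, b4, smul_eq_mul]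
  · have h : ‖(J_memLp f).toLp (J f)‖ ≤ ‖f‖ := by
      have h1 := Lp.norm_le_of_ae_bound (f := (J_memLp f).toLp (J f)) (norm_nonneg f) (by
        filter_upwards [(J_memLp f).coeFn_toLp, ae_of_Ioc (p := fun x => |J f x| ≤ ‖f‖)
          fun x hx => J_le f hx.1.le hx.2] with x b1 b2
        rw [b1]
        exact b2)
      simpa [measureUnivNNReal] using h1
    rw [one_mul]
    exact h

/-- multiplication operators -/
theorem exM {w : ℝ → ℝ} (hw : Measurable w) {C : ℝ} (hC : ∀ x ∈ Ioc (0 : ℝ) 1, |w x| ≤ C) :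
    ∃ M : L2 1 →L[ℝ] L2 1, ∀ f : L2 1,
      (M f : ℝ → ℝ) =ᵐ[volume.restrict (Ioc (0 : ℝ) 1)] fun x => w x * f x := by
  have hC0 : 0 ≤ C := (abs_nonneg _).trans (hC 1 ⟨one_pos, le_rfl⟩)
  have hm : ∀ f : L2 1, MemLp (fun x => w x * f x) 2 (volume.restrict (Ioc (0 : ℝ) 1)) := by
    intro f
    refine (Lp.memLp f).of_le_mul (c := C)
      (hw.aestronglyMeasurable.mul (Lp.aestronglyMeasurable f)) ?_
    refine ae_of_Ioc fun x hx => ?_
    rw [norm_mul]
    exact mul_le_mul_of_nonneg_right (hC x hx) (norm_nonneg _)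
  refine ⟨LinearMap.mkContinuous
    { toFun := fun f => (hm f).toLp _
      map_add' := fun f g => ?_
      map_smul' := fun c f => ?_ } C fun f => ?_, fun f => (hm f).coeFn_toLp⟩
  · refine Lp.ext ?_
    filter_upwards [(hm (f + g)).coeFn_toLp, (hm f).coeFn_toLp, (hm g).coeFn_toLp,
      Lp.coeFn_add ((hm f).toLp _) ((hm g).toLp _), Lp.coeFn_add f g] with x b1 b2 b3 b4 b5
    rw [b1, b4, Pi.add_apply, b2, b3, b5, Pi.add_apply]
    ring
  · refine Lp.ext ?_
    filter_upwards [(hm (c • f)).coeFn_toLp, (hm f).coeFn_toLp,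
      Lp.coeFn_smul c ((hm f).toLp _), Lp.coeFn_smul c f] with x b1 b2 b3 b4
    rw [b1, RingHom.id_apply, b3, Pi.smul_apply, b2, b4, Pi.smul_apply, smul_eq_mul, smul_eq_mul]
    ring
  · refine Lp.norm_le_mul_norm_of_ae_le_mul ?_
    have h2 : ∀ᵐ x ∂(volume.restrict (Ioc (0 : ℝ) 1)), |w x| ≤ C := ae_of_Ioc hC
    filter_upwards [(hm f).coeFn_toLp, h2] with x b1 b2
    have b1' : ((hm f).toLp (fun x => w x * f x) : ℝ → ℝ) x = w x * f x := b1
    show ‖((hm f).toLp (fun x => w x * f x) : ℝ → ℝ) x‖ ≤ C * ‖f x‖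
    rw [b1', norm_mul]
    exact mul_le_mul_of_nonneg_right b2 (norm_nonneg _)

/-- the inner product as an integral -/
theorem inner_eq (f g : L2 1) {F G : ℝ → ℝ} (hF : (f : ℝ → ℝ) =ᵐ[volume.restrict (Ioc (0 : ℝ) 1)] F)
    (hG : (g : ℝ → ℝ) =ᵐ[volume.restrict (Ioc (0 : ℝ) 1)] G) :
    inner ℝ f g = ∫ x in (0:ℝ)..1, F x * G x := by
  rw [L2.inner_def, intervalIntegral.integral_of_le zero_le_one]
  refine integral_congr_ae ?_
  filter_upwards [hF, hG] with x h1 h2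
  rw [h1, h2]
  simp [mul_comm]

/-- weighted inner product -/
theorem inner_w {w : ℝ → ℝ} {M : L2 1 →L[ℝ] L2 1} (hM : ∀ f : L2 1,
      (M f : ℝ → ℝ) =ᵐ[volume.restrict (Ioc (0 : ℝ) 1)] fun x => w x * f x) (f g : L2 1)
    {F G : ℝ → ℝ} (hF : (f : ℝ → ℝ) =ᵐ[volume.restrict (Ioc (0 : ℝ) 1)] F)
    (hG : (g : ℝ → ℝ) =ᵐ[volume.restrict (Ioc (0 : ℝ) 1)] G) :
    inner ℝ (M f) g = ∫ x in (0:ℝ)..1, w x * F x * G x := by
  refine inner_eq (M f) g (F := fun x => w x * F x) ?_ hG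
  filter_upwards [hM f, hF] with x h1 h2
  rw [h1, h2]

theorem inner_w_symm {w : ℝ → ℝ} {M : L2 1 →L[ℝ] L2 1} (hM : ∀ f : L2 1,
      (M f : ℝ → ℝ) =ᵐ[volume.restrict (Ioc (0 : ℝ) 1)] fun x => w x * f x) (f g : L2 1) :
    inner ℝ (M f) g = inner ℝ (M g) f := by
  rw [inner_w hM f g (EventuallyEq.refl _ _) (EventuallyEq.refl _ _),
    inner_w hM g f (EventuallyEq.refl _ _) (EventuallyEq.refl _ _)]
  congr 1
  funext x
  ring

theorem VV_ae {V : L2 1 →L[ℝ] L2 1} (hV : ∀ f : L2 1,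
    (V f : ℝ → ℝ) =ᵐ[volume.restrict (Ioc (0 : ℝ) 1)] J f) (f : L2 1) :
    (V (V f) : ℝ → ℝ) =ᵐ[volume.restrict (Ioc (0 : ℝ) 1)] J (J f) := by
  have h : ∀ᵐ x ∂(volume.restrict (Ioc (0 : ℝ) 1)), J (V f) x = J (J f) x :=
    ae_of_Ioc fun x hx => J_congr (hV f) hx.1.le hx.2
  filter_upwards [hV (V f), h] with x h1 h2
  rw [h1, h2]

theorem pw_meas (L0 a b : ℝ) : Measurable (pw L0 a b) :=
  Measurable.ite measurableSet_Iic measurable_const measurable_const

theorem hh_meas : Measurable hh :=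
  Measurable.ite measurableSet_Iic (by fun_prop) (by fun_prop)

theorem mm_meas : Measurable mm := by unfold mm; fun_prop

theorem chi_meas : Measurable chi :=
  Measurable.ite measurableSet_Iic measurable_const
    (Measurable.ite measurableSet_Iic (by fun_prop) measurable_const)

theorem hder_inner {f g : ℝ → L2 1} {f' g' : L2 1} {s : Set ℝ} {t : ℝ}
    (A B : L2 1 →L[ℝ] L2 1) (hf : HasDerivWithinAt f f' s t) (hg : HasDerivWithinAt g g' s t) :
    HasDerivWithinAt (fun t => inner ℝ (A (f t)) (B (g t)))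
      (inner ℝ (A (f t)) (B g') + inner ℝ (A f') (B (g t))) s t :=
  HasDerivWithinAt.inner ℝ (A.hasFDerivAt.comp_hasDerivWithinAt t hf)
    (B.hasFDerivAt.comp_hasDerivWithinAt t hg)

theorem cont_inner {f g : ℝ → L2 1} {s : Set ℝ}
    (A B : L2 1 →L[ℝ] L2 1) (hf : ContinuousOn f s) (hg : ContinuousOn g s) :
    ContinuousOn (fun t => (inner ℝ (A (f t)) (B (g t)) : ℝ)) s :=
  ContinuousOn.inner (𝕜 := ℝ) (A.continuous.comp_continuousOn hf) (B.continuous.comp_continuousOn hg)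

theorem a_main (ρ1 ρ2 : ℝ) (p q θ p' q' θ' : ℝ → L2 1) (hp : ContinuousOn p (Ici 0))
    (hq : ContinuousOn q (Ici 0)) (hθ : ContinuousOn θ (Ici 0))
    (dp : ∀ t, 0 ≤ t → HasDerivWithinAt p (p' t) (Ici t) t)
    (dq : ∀ t, 0 ≤ t → HasDerivWithinAt q (q' t) (Ici t) t)
    (dθ : ∀ t, 0 ≤ t → HasDerivWithinAt θ (θ' t) (Ici t) t) :
    ContinuousOn (fun t => LamF ρ1 ρ2 (p t) (q t) (θ t)) (Ici 0) ∧
    ∀ t, 0 ≤ t → HasDerivWithinAt (fun t => LamF ρ1 ρ2 (p t) (q t) (θ t))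
      (dLamF ρ1 ρ2 (p t) (q t) (θ t) (p' t) (q' t) (θ' t)) (Ici t) t := by
  obtain ⟨V, hV⟩ := exV
  obtain ⟨M1, hM1⟩ := exM (w := rh ρ1 ρ2) (pw_meas _ _ _) (C := max |ρ1| |ρ2|) (by
    intro x _
    unfold rh pw
    split_ifs
    · exact le_max_left _ _
    · exact le_max_right _ _)
  obtain ⟨M2, hM2⟩ := exM (w := hh) hh_meas (C := 1) (by
    intro x hx
    have h1 := hx.1
    have h2 := hx.2
    unfold hh
    split_ifs with h
    · rw [abs_le]
      constructor <;> linarith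
    · rw [abs_le]
      constructor <;> linarith)
  obtain ⟨M3, hM3⟩ := exM (w := mm) mm_meas (C := 1) (by
    intro x hx
    have h1 := hx.1
    have h2 := hx.2
    unfold mm
    rw [abs_le]
    constructor <;> linarith)
  obtain ⟨M4, hM4⟩ := exM (w := chi) chi_meas (C := 1) (by
    intro x hx
    have h1 := hx.1
    have h2 := hx.2
    unfold chi
    split_ifs with h h'
    · simp
    · rw [abs_le]
      rw [not_le] at h
      constructor <;> linarith
    · simp)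
  have er : ∀ f : L2 1, (f : ℝ → ℝ) =ᵐ[volume.restrict (Ioc (0 : ℝ) 1)] f :=
    fun f => EventuallyEq.refl _ _
  have eL : ∀ p q θ : L2 1, LamF ρ1 ρ2 p q θ =
      16384 * (inner ℝ (M1 (V q)) (V q) + inner ℝ q q + inner ℝ p p + inner ℝ θ θ) +
      (1 / 16) * (inner ℝ (M1 (V q)) (V (V p)) + inner ℝ q (V p)) - 2 * inner ℝ (M2 q) p +
      (1 / 1024) * inner ℝ (M3 q) p + inner ℝ (M4 θ) (V q) := by
    intro p q θ
    rw [inner_w hM1 _ _ (hV q) (hV q), inner_w hM1 _ _ (hV q) (VV_ae hV p),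
      inner_eq _ _ (er q) (er q), inner_eq _ _ (er p) (er p), inner_eq _ _ (er θ) (er θ),
      inner_eq _ _ (er q) (hV p), inner_w hM2 _ _ (er q) (er p), inner_w hM3 _ _ (er q) (er p),
      inner_w hM4 _ _ (er θ) (hV q)]
    rfl
  have eD : ∀ p q θ p' q' θ' : L2 1, dLamF ρ1 ρ2 p q θ p' q' θ' =
      32768 * (inner ℝ (M1 (V q)) (V q') + inner ℝ q q' + inner ℝ p p' + inner ℝ θ θ') +
      (1 / 16) * (inner ℝ (M1 (V q')) (V (V p)) + inner ℝ (M1 (V q)) (V (V p')) +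
        inner ℝ q' (V p) + inner ℝ q (V p')) -
      2 * (inner ℝ (M2 q') p + inner ℝ (M2 q) p') +
      (1 / 1024) * (inner ℝ (M3 q') p + inner ℝ (M3 q) p') +
      (inner ℝ (M4 θ') (V q) + inner ℝ (M4 θ) (V q')) := by
    intro p q θ p' q' θ'
    rw [inner_w hM1 _ _ (hV q) (hV q'), inner_w hM1 _ _ (hV q') (VV_ae hV p),
      inner_w hM1 _ _ (hV q) (VV_ae hV p'),
      inner_eq _ _ (er q) (er q'), inner_eq _ _ (er p) (er p'), inner_eq _ _ (er θ) (er θ'),
      inner_eq _ _ (er q') (hV p), inner_eq _ _ (er q) (hV p'),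
      inner_w hM2 _ _ (er q') (er p), inner_w hM2 _ _ (er q) (er p'),
      inner_w hM3 _ _ (er q') (er p), inner_w hM3 _ _ (er q) (er p'),
      inner_w hM4 _ _ (er θ') (hV q), inner_w hM4 _ _ (er θ) (hV q')]
    rfl
  let I := ContinuousLinearMap.id ℝ (L2 1)
  constructor
  · have h : (fun t => LamF ρ1 ρ2 (p t) (q t) (θ t)) = fun t =>
      16384 * (inner ℝ ((M1.comp V) (q t)) (V (q t)) + inner ℝ (I (q t)) (I (q t)) +
        inner ℝ (I (p t)) (I (p t)) + inner ℝ (I (θ t)) (I (θ t))) +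
      (1 / 16) * (inner ℝ ((M1.comp V) (q t)) ((V.comp V) (p t)) + inner ℝ (I (q t)) (V (p t))) -
      2 * inner ℝ (M2 (q t)) (I (p t)) +
      (1 / 1024) * inner ℝ (M3 (q t)) (I (p t)) + inner ℝ (M4 (θ t)) (V (q t)) := by
      funext t
      rw [eL]
      rfl
    rw [h]
    exact (((((((cont_inner (M1.comp V) V hq hq).add (cont_inner I I hq hq)).add
      (cont_inner I I hp hp)).add (cont_inner I I hθ hθ)).const_mul 16384).add
      (((cont_inner (M1.comp V) (V.comp V) hq hp).add (cont_inner I V hq hp)).const_mul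
        (1 / 16))).sub ((cont_inner M2 I hq hp).const_mul 2)).add
      ((cont_inner M3 I hq hp).const_mul (1 / 1024)) |>.add (cont_inner M4 V hθ hq)
  · intro t ht
    have h : (fun t => LamF ρ1 ρ2 (p t) (q t) (θ t)) = fun t =>
      16384 * (inner ℝ ((M1.comp V) (q t)) (V (q t)) + inner ℝ (I (q t)) (I (q t)) +
        inner ℝ (I (p t)) (I (p t)) + inner ℝ (I (θ t)) (I (θ t))) +
      (1 / 16) * (inner ℝ ((M1.comp V) (q t)) ((V.comp V) (p t)) + inner ℝ (I (q t)) (V (p t))) -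
      2 * inner ℝ (M2 (q t)) (I (p t)) +
      (1 / 1024) * inner ℝ (M3 (q t)) (I (p t)) + inner ℝ (M4 (θ t)) (V (q t)) := by
      funext t
      rw [eL]
      rfl
    rw [h, eD]
    have k := (((((((hder_inner (M1.comp V) V (dq t ht) (dq t ht)).add
      (hder_inner I I (dq t ht) (dq t ht))).add
      (hder_inner I I (dp t ht) (dp t ht))).add
      (hder_inner I I (dθ t ht) (dθ t ht))).const_mul 16384).add
      (((hder_inner (M1.comp V) (V.comp V) (dq t ht) (dp t ht)).add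
        (hder_inner I V (dq t ht) (dp t ht))).const_mul
        (1 / 16))).sub ((hder_inner M2 I (dq t ht) (dp t ht)).const_mul 2)).add
      ((hder_inner M3 I (dq t ht) (dp t ht)).const_mul (1 / 1024)) |>.add
        (hder_inner M4 V (dθ t ht) (dq t ht))
    refine k.congr_deriv ?_
    have s1 : inner ℝ (M1 (V (q' t))) (V (q t)) = (inner ℝ (M1 (V (q t))) (V (q' t)) : ℝ) :=
      inner_w_symm hM1 _ _
    have s2 : inner ℝ (q' t) (q t) = (inner ℝ (q t) (q' t) : ℝ) := real_inner_comm _ _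
    have s3 : inner ℝ (p' t) (p t) = (inner ℝ (p t) (p' t) : ℝ) := real_inner_comm _ _
    have s4 : inner ℝ (θ' t) (θ t) = (inner ℝ (θ t) (θ' t) : ℝ) := real_inner_comm _ _
    simp only [ContinuousLinearMap.comp_apply, I, ContinuousLinearMap.id_apply]
    rw [s1, s2, s3, s4]
    ring

theorem a_stmt : AStmt := by
  intro ρ1 ρ2 Φ Ψ hc hd
  have hc' : ContinuousOn (show ℝ → L2 1 × L2 1 × L2 1 from Φ) (Ici 0) := hc
  have hd' : ∀ t, 0 ≤ t → HasDerivWithinAt (show ℝ → L2 1 × L2 1 × L2 1 from Φ) (Ψ t) (Ici t) t := hd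
  exact a_main ρ1 ρ2 (fun t => (Φ t).1) (fun t => (Φ t).2.1) (fun t => (Φ t).2.2)
    (fun t => (Ψ t).1) (fun t => (Ψ t).2.1) (fun t => (Ψ t).2.2)
    (continuous_fst.comp_continuousOn hc') (continuous_fst.comp_continuousOn
      (continuous_snd.comp_continuousOn hc')) (continuous_snd.comp_continuousOn
      (continuous_snd.comp_continuousOn hc'))
    (fun t ht => (ContinuousLinearMap.fst ℝ (L2 1) (L2 1 × L2 1)).hasFDerivAt.comp_hasDerivWithinAt t
      (hd' t ht))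
    (fun t ht => ((ContinuousLinearMap.fst ℝ (L2 1) (L2 1)).comp (ContinuousLinearMap.snd ℝ (L2 1)
      (L2 1 × L2 1))).hasFDerivAt.comp_hasDerivWithinAt t (hd' t ht))
    (fun t ht => ((ContinuousLinearMap.snd ℝ (L2 1) (L2 1)).comp (ContinuousLinearMap.snd ℝ (L2 1)
      (L2 1 × L2 1))).hasFDerivAt.comp_hasDerivWithinAt t (hd' t ht))

end

end Pool.Agent.T2H75.RB
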