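import Mathlib
import Pool.Agent.T2H75.RB.Defs
import Pool.Agent.T2H75.RB.A

/-!
# MP_542e45_an, package B: the static data of an element of the domain
-/

set_option autoImplicit false

open MeasureTheory Set Filter

namespace Pool.Agent.T2H75.RB

noncomputable section

theorem ac_prim {F : ℝ → ℝ} {b : ℝ} (c : ℝ) (hb : 0 ≤ b) (hF : IntervalIntegrable F volume 0 b) :
    AC 0 b (fun x => c + J F x) F := by
  refine ⟨?_, hF, ?_⟩
  · have h1 := hF.absolutelyContinuousOnInterval_intervalIntegral (c := 0) left_mem_uIcc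
    have h2 : AbsolutelyContinuousOnInterval (fun _ : ℝ => c) 0 b :=
      (LipschitzWith.const c).lipschitzOnWith.absolutelyContinuousOnInterval
    exact h2.add h1
  · filter_upwards [hF.ae_hasDerivAt_integral] with x hx hx1
    rw [uIcc_of_le hb] at hx
    exact (hx hx1 0 ⟨le_rfl, hb⟩).const_add c

theorem ac_prim0 {F : ℝ → ℝ} {b : ℝ} (hb : 0 ≤ b) (hF : IntervalIntegrable F volume 0 b) :
    AC 0 b (J F) F := by
  have h := ac_prim 0 hb hF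
  simp only [zero_add] at h
  exact h

theorem AC.ii {f F : ℝ → ℝ} {b : ℝ} (h : AC 0 b f F) : IntervalIntegrable f volume 0 b :=
  h.1.continuousOn.intervalIntegrable

theorem ii_sub {F : ℝ → ℝ} (h : IntervalIntegrable F volume 0 1) {x : ℝ} (h0 : 0 ≤ x)
    (h1 : x ≤ 1) : IntervalIntegrable F volume 0 x :=
  h.mono_set (by
    rw [uIcc_of_le h0, uIcc_of_le zero_le_one]
    exact Icc_subset_Icc_right h1)

theorem J_eqOn {F G : ℝ → ℝ} {x : ℝ} (h0 : 0 ≤ x) (h : ∀ s ∈ Icc 0 x, F s = G s) :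
    J F x = J G x := by
  unfold J
  refine intervalIntegral.integral_congr ?_
  rw [uIcc_of_le h0]
  exact h

theorem J_congr' {f g : ℝ → ℝ} (h : ∀ᵐ x, x ∈ Ioc (0 : ℝ) 1 → f x = g x) {x : ℝ} (h0 : 0 ≤ x)
    (h1 : x ≤ 1) : J f x = J g x :=
  J_congr ((ae_restrict_iff' measurableSet_Ioc).2 h) h0 h1

theorem rh_ii (ρ1 ρ2 : ℝ) (f : L2 1) :
    IntervalIntegrable (fun s => rh ρ1 ρ2 s * J f s) volume 0 1 := by
  obtain ⟨V, hV⟩ := exV
  obtain ⟨M1, hM1⟩ := exM (w := rh ρ1 ρ2) (pw_meas _ _ _) (C := max |ρ1| |ρ2|) (by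
    intro x _
    unfold rh pw
    split_ifs
    · exact le_max_left _ _
    · exact le_max_right _ _)
  rw [intervalIntegrable_iff_integrableOn_Ioc_of_le zero_le_one]
  refine (fint (M1 (V f))).congr ?_
  filter_upwards [hM1 (V f), hV f] with x h1 h2
  rw [h1, h2]

theorem cut_ii {η : ℝ → ℝ} (h : IntervalIntegrable η volume 0 1) :
    IntervalIntegrable (cut η) volume 0 1 := by
  rw [intervalIntegrable_iff_integrableOn_Ioc_of_le zero_le_one] at h ⊢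
  have e : cut η = Set.indicator (Iic (4095 / 4096)) η := by
    funext x
    unfold cut Set.indicator
    rfl
  rw [e]
  exact h.indicator measurableSet_Iic

theorem b_main {ρ1 ρ2 : ℝ} (h1 : 0 < ρ1) (h1' : ρ1 ≤ 1) (h2 : 0 < ρ2) (h2' : ρ2 ≤ 1)
    (P Q Θ P' Q' B : L2 1)
    (hJP : J P 1 = 0) (hJJP : J (J P) 1 = 0) (hJQ : J Q 1 = 0)
    (hΘ : ∀ᵐ x, x ∈ Ioc (4095 / 4096 : ℝ) 1 → Θ x = 0)
    (hJP' : J P' 1 = 0) (hJQ' : J Q' 1 = 0)
    (hB : ∀ᵐ x, x ∈ Ioc (4095 / 4096 : ℝ) 1 → B x = 0)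
    (hQ : ∀ᵐ x, x ∈ Ioc (0:ℝ) 1 → Q x = J P' x)
    (S0 : ℝ → ℝ) (s0 : ℝ)
    (hS : ∀ x ∈ Icc (0:ℝ) 1, S0 x = s0 + J (fun s => rh ρ1 ρ2 s * J Q' s) x)
    (g0 : ℝ) (hg : ∀ᵐ x, x ∈ Ioc (0:ℝ) 1 → P x + Θ x = g0 + J (fun s => Q' s - S0 s) x)
    (η0 : ℝ → ℝ) (e0 : ℝ)
    (hη : ∀ x ∈ Icc (0:ℝ) (4095 / 4096), η0 x = e0 + J (fun s => B s - P' s) x)
    (hη0 : J η0 (4095 / 4096) = 0)
    (hΘ' : ∀ᵐ x, x ∈ Ioc (0:ℝ) (4095 / 4096) → Θ x = J η0 x) :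
    ∃ p q θ S η : ℝ → ℝ, (∀ᵐ x, x ∈ Ioc (0:ℝ) 1 → P x = p x) ∧
      (∀ᵐ x, x ∈ Ioc (0:ℝ) 1 → Q x = q x) ∧ (∀ᵐ x, x ∈ Ioc (0:ℝ) 1 → Θ x = θ x) ∧
      Dat ρ1 ρ2 p q θ P' Q' B (J (J p)) (J p) (J q) (J Q') S η := by
  obtain ⟨S, hSd⟩ : ∃ S : ℝ → ℝ, S = fun x => s0 + J (fun s => rh ρ1 ρ2 s * J Q' s) x := ⟨_, rfl⟩
  obtain ⟨η, hηd⟩ : ∃ η : ℝ → ℝ, η = fun x => e0 + J (fun s => B s - P' s) x := ⟨_, rfl⟩
  have iP' := ii P' zero_le_one le_rfl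
  have iQ' := ii Q' zero_le_one le_rfl
  have iB := ii B zero_le_one le_rfl
  have acS : AC 0 1 S (fun x => rh ρ1 ρ2 x * J Q' x) := by
    rw [hSd]
    exact ac_prim s0 zero_le_one (rh_ii ρ1 ρ2 Q')
  have acη1 : AC 0 1 η (fun x => B x - P' x) := by
    rw [hηd]
    exact ac_prim e0 zero_le_one (iB.sub iP')
  have acη : AC 0 (4095 / 4096) η (fun x => B x - P' x) := by
    rw [hηd]
    exact ac_prim e0 (by norm_num) (ii_sub (iB.sub iP') (by norm_num) (by norm_num))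
  have iS := acS.ii
  have iη := cut_ii acη1.ii
  obtain ⟨θ, hθd⟩ : ∃ θ : ℝ → ℝ, θ = J (cut η) := ⟨_, rfl⟩
  obtain ⟨p, hpd⟩ : ∃ p : ℝ → ℝ, p = fun x => g0 + J (fun x => Q' x - S x - cut η x) x := ⟨_, rfl⟩
  obtain ⟨q, hqd⟩ : ∃ q : ℝ → ℝ, q = J P' := ⟨_, rfl⟩
  have acθ : AC 0 1 θ (cut η) := by
    rw [hθd]
    exact ac_prim0 zero_le_one iη
  have acp : AC 0 1 p (fun x => Q' x - S x - cut η x) := by
    rw [hpd]
    exact ac_prim g0 zero_le_one ((iQ'.sub iS).sub iη)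
  have acq : AC 0 1 q P' := by
    rw [hqd]
    exact ac_prim0 zero_le_one iP'
  have acz : AC 0 1 (J p) p := ac_prim0 zero_le_one acp.ii
  have acu : AC 0 1 (J (J p)) (J p) := ac_prim0 zero_le_one acz.ii
  have acv : AC 0 1 (J q) q := ac_prim0 zero_le_one acq.ii
  have aca : AC 0 1 (J Q') Q' := ac_prim0 zero_le_one iQ'
  have hθ1 : ∀ x ∈ Icc (0:ℝ) (4095 / 4096), θ x = J η0 x := by
    intro x hx
    rw [hθd]
    refine J_eqOn hx.1 fun s hs => ?_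
    have hs' : s ≤ 4095 / 4096 := hs.2.trans hx.2
    unfold cut
    rw [if_pos hs', hη s ⟨hs.1, hs'⟩, hηd]
  have hθ0 : ∀ x ∈ Icc (4095 / 4096 : ℝ) 1, θ x = 0 := by
    intro x hx
    have e1 : θ x = J (cut η) (4095 / 4096) + ∫ s in (4095 / 4096 : ℝ)..x, cut η s := by
      rw [hθd]
      unfold J
      rw [intervalIntegral.integral_add_adjacent_intervals (ii_sub iη (by norm_num) (by norm_num))]
      refine iη.mono_set ?_
      rw [uIcc_of_le hx.1, uIcc_of_le zero_le_one]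
      exact Icc_subset_Icc (by norm_num) hx.2
    have e2 : J (cut η) (4095 / 4096) = 0 := by
      rw [← hθd, hθ1 _ ⟨by norm_num, le_rfl⟩, hη0]
    have e3 : ∫ s in (4095 / 4096 : ℝ)..x, cut η s = 0 := by
      refine intervalIntegral.integral_zero_ae (ae_of_all _ fun s hs => ?_)
      rw [uIoc_of_le hx.1] at hs
      unfold cut
      rw [if_neg (not_le.2 hs.1)]
    rw [e1, e2, e3, add_zero]
  have hΘa : ∀ᵐ x, x ∈ Ioc (0:ℝ) 1 → Θ x = θ x := by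
    filter_upwards [hΘ, hΘ'] with x a1 a2 hx
    rcases le_or_gt x (4095 / 4096) with h | h
    · rw [a2 ⟨hx.1, h⟩, hθ1 x ⟨hx.1.le, h⟩]
    · rw [a1 ⟨h, hx.2⟩, hθ0 x ⟨h.le, hx.2⟩]
  have hPa : ∀ᵐ x, x ∈ Ioc (0:ℝ) 1 → P x = p x := by
    filter_upwards [hg, hΘa] with x a1 a2 hx
    have b1 := a1 hx
    have b2 := a2 hx
    have e1 : J (fun s => Q' s - S0 s) x = J (fun s => Q' s - S s) x := by
      refine J_eqOn hx.1.le fun s hs => ?_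
      rw [hS s ⟨hs.1, hs.2.trans hx.2⟩, hSd]
    have e2 : J (fun x => Q' x - S x - cut η x) x = J (fun s => Q' s - S s) x - J (cut η) x := by
      unfold J
      exact intervalIntegral.integral_sub ((ii_sub iQ' hx.1.le hx.2).sub (ii_sub iS hx.1.le hx.2))
        (ii_sub iη hx.1.le hx.2)
    have e3 : p x = g0 + (J (fun s => Q' s - S s) x - θ x) := by
      rw [hpd, hθd]
      show g0 + J (fun x => Q' x - S x - cut η x) x = _
      rw [e2]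
    rw [e1, b2] at b1
    rw [e3]
    linarith
  have hQa : ∀ᵐ x, x ∈ Ioc (0:ℝ) 1 → Q x = q x := by
    rw [hqd]
    exact hQ
  have hz1 : ∀ x ∈ Icc (0:ℝ) 1, J P x = J p x := fun x hx => J_congr' hPa hx.1 hx.2
  have z0 : ∀ F : ℝ → ℝ, J F 0 = 0 := fun F => intervalIntegral.integral_same
  refine ⟨p, q, θ, S, η, hPa, hQa, hΘa, ?_⟩
  exact
    { hρ1 := ⟨h1, h1'⟩
      hρ2 := ⟨h2, h2'⟩
      hu := acu
      hz := acz
      hv := acv
      ha := aca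
      hq := acq
      hp := acp
      hθ := acθ
      hS := acS
      hη := acη
      bu := ⟨z0 _, by rw [← J_eqOn zero_le_one hz1, hJJP]⟩
      bz := ⟨z0 _, by rw [← hz1 1 ⟨zero_le_one, le_rfl⟩, hJP]⟩
      bv := ⟨z0 _, by rw [← J_congr' hQa zero_le_one le_rfl, hJQ]⟩
      ba := ⟨z0 _, hJQ'⟩
      bq := ⟨by rw [hqd]; exact z0 _, by rw [hqd]; exact hJP'⟩
      bθ := by rw [hθd]; exact z0 _
      bθ0 := hθ0
      bb := hB
      lp' := Lp.memLp P'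
      lq' := Lp.memLp Q'
      lb := Lp.memLp B }

theorem b_stmt : BStmt := by
  intro ρ1 ρ2 h1 h1' h2 h2' Φ Ψ hG
  obtain ⟨⟨a1, a2, a3, a4⟩, ⟨c1, c2, c3, c4⟩, d1, ⟨S, ⟨s0, hS⟩, g0, hg⟩, η, ⟨e0, hη⟩, hη0, hΘ⟩ := hG
  refine b_main h1 h1' h2 h2' Φ.1 Φ.2.1 Φ.2.2 Ψ.1 Ψ.2.1 Ψ.2.2 a1 a2 a3 a4 c1 c3 c4 d1 S s0 hS g0 ?_
    η e0 ?_ hη0 hΘ
  · filter_upwards [hg] with x hx h
    have h3 := hx h
    have p1 : ∀ y : ℝ, pw (par ρ1 ρ2).L0 (par ρ1 ρ2).β1 (par ρ1 ρ2).β2 y = 1 := by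
      intro y
      show pw (4095 / 4096) 1 1 y = 1
      unfold pw
      split_ifs <;> rfl
    have p2 : ∀ y : ℝ, pw (par ρ1 ρ2).L0 (par ρ1 ρ2).α1 (par ρ1 ρ2).α2 y = 1 := by
      intro y
      show pw (4095 / 4096) 1 1 y = 1
      unfold pw
      split_ifs <;> rfl
    have p3 : (par ρ1 ρ2).γ = 1 := rfl
    simp only [p1, p2, p3, one_mul] at h3
    exact h3
  · intro x hx
    have h3 := hη x hx
    have p3 : (par ρ1 ρ2).γ = 1 := rfl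
    have p4 : (par ρ1 ρ2).ρ0 = 1 := rfl
    have p5 : (par ρ1 ρ2).κ = 1 := rfl
    simp only [p3, p4, p5, one_mul, div_one] at h3
    exact h3

end

end Pool.Agent.T2H75.RB
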