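import Pool.Agent.T2H75.RB.Defs

set_option autoImplicit false

open MeasureTheory Set Filter intervalIntegral

namespace Pool.Agent.T2H75.RB

section tools

variable {a b : ℝ} {f F g G : ℝ → ℝ}

lemma AC.cont (h : AC a b f F) : ContinuousOn f (uIcc a b) := h.1.continuousOn

lemma AC.iintg (h : AC a b f F) : IntervalIntegrable f volume a b := h.cont.intervalIntegrable

lemma AC.mul (hab : a ≤ b) (hf : AC a b f F) (hg : AC a b g G) :
    AC a b (fun x => f x * g x) (fun x => F x * g x + f x * G x) := by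
  refine ⟨hf.1.fun_mul hg.1, (hf.2.1.mul_continuousOn hg.cont).add (hg.2.1.continuousOn_mul hf.cont), ?_⟩
  filter_upwards [hf.2.2, hg.2.2] with x h1 h2 h3
  exact (h1 h3).mul (h2 h3)

lemma AC.add (hf : AC a b f F) (hg : AC a b g G) :
    AC a b (fun x => f x + g x) (fun x => F x + G x) := by
  refine ⟨hf.1.fun_add hg.1, hf.2.1.add hg.2.1, ?_⟩
  filter_upwards [hf.2.2, hg.2.2] with x h1 h2 h3
  exact (h1 h3).add (h2 h3)

lemma AC.integral (hab : a ≤ b) (hf : AC a b f F) : ∫ x in a..b, F x = f b - f a := by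
  rw [← hf.1.integral_deriv_eq_sub]
  apply intervalIntegral.integral_congr_ae
  filter_upwards [hf.2.2] with x h1 h2
  rw [uIoc_of_le hab] at h2
  exact ((h1 ⟨h2.1.le, h2.2⟩).deriv).symm

lemma AC.mono (hab : a ≤ b) (hf : AC a b f F) {c d : ℝ} (hac : a ≤ c) (hcd : c ≤ d) (hdb : d ≤ b) :
    AC c d f F := by
  have hsub : uIcc c d ⊆ uIcc a b := by
    rw [uIcc_of_le hcd, uIcc_of_le hab]
    exact Icc_subset_Icc hac hdb
  refine ⟨hf.1.mono hsub, hf.2.1.mono_set hsub, ?_⟩
  filter_upwards [hf.2.2] with x h1 h2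
  exact h1 ⟨hac.trans h2.1, h2.2.trans hdb⟩

lemma AC.ibp (hab : a ≤ b) (hf : AC a b f F) (hg : AC a b g G) :
    (∫ x in a..b, F x * g x) + (∫ x in a..b, f x * G x) = f b * g b - f a * g a := by
  rw [← (hf.mul hab hg).integral hab, ← intervalIntegral.integral_add]
  · exact hf.2.1.mul_continuousOn hg.cont
  · exact hg.2.1.continuousOn_mul hf.cont

lemma AC.primitive (hab : a ≤ b) (hf : AC a b f F) {x : ℝ} (hx : x ∈ Icc a b) :
    ∫ s in a..x, F s = f x - f a := (hf.mono hab le_rfl hx.1 hx.2).integral hx.1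

/-- Cauchy-Schwarz against the constant one -/
lemma cs_one (hab : a ≤ b) (hf : ContinuousOn f (uIcc a b)) :
    (∫ x in a..b, f x) ^ 2 ≤ (b - a) * ∫ x in a..b, f x ^ 2 := by
  rcases eq_or_lt_of_le hab with rfl | hlt
  · simp
  have hi : IntervalIntegrable f volume a b := hf.intervalIntegrable
  have hi2 : IntervalIntegrable (fun x => f x ^ 2) volume a b := (hf.pow 2).intervalIntegrable
  set m := (∫ x in a..b, f x) / (b - a) with hm
  have h0 : 0 ≤ ∫ x in a..b, (f x - m) ^ 2 :=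
    intervalIntegral.integral_nonneg hab fun x _ => sq_nonneg _
  have h1 : ∫ x in a..b, (f x - m) ^ 2 = (∫ x in a..b, f x ^ 2) - 2 * m * (∫ x in a..b, f x) + m ^ 2 * (b - a) := by
    have : ∀ x, (f x - m) ^ 2 = f x ^ 2 - 2 * m * f x + m ^ 2 := fun x => by ring
    simp_rw [this]
    rw [intervalIntegral.integral_add (hi2.sub (hi.const_mul _)) (by simp),
      intervalIntegral.integral_sub hi2 (hi.const_mul _), intervalIntegral.integral_const_mul,
      intervalIntegral.integral_const]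
    simp only [smul_eq_mul]
    ring
  have hba : 0 < b - a := sub_pos.2 hlt
  rw [h1] at h0
  have h2 : m * (b - a) = ∫ x in a..b, f x := by rw [hm]; field_simp
  nlinarith [h0, h2, hba]

/-- Cauchy-Schwarz with a weight `w` between zero and one -/
lemma cs_weight {w : ℝ → ℝ} (hab : a ≤ b) (hab1 : b - a ≤ 1) (hw : IntervalIntegrable w volume a b)
    (hw0 : ∀ x, 0 ≤ w x ∧ w x ≤ 1) (hf : ContinuousOn f (uIcc a b)) :
    (∫ x in a..b, w x * f x) ^ 2 ≤ ∫ x in a..b, w x * f x ^ 2 := by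
  have hi : IntervalIntegrable (fun x => w x * f x) volume a b := hw.mul_continuousOn hf
  have hi2 : IntervalIntegrable (fun x => w x * f x ^ 2) volume a b := hw.mul_continuousOn (hf.pow 2)
  set m := ∫ x in a..b, w x * f x with hm
  have h0 : 0 ≤ ∫ x in a..b, w x * (f x - m) ^ 2 :=
    intervalIntegral.integral_nonneg hab fun x _ => mul_nonneg (hw0 x).1 (sq_nonneg _)
  have h1 : ∫ x in a..b, w x * (f x - m) ^ 2 =
      (∫ x in a..b, w x * f x ^ 2) - 2 * m * m + m ^ 2 * ∫ x in a..b, w x := by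
    have : ∀ x, w x * (f x - m) ^ 2 = w x * f x ^ 2 - 2 * m * (w x * f x) + m ^ 2 * w x := fun x => by ring
    simp_rw [this]
    rw [intervalIntegral.integral_add (hi2.sub (hi.const_mul _)) (hw.const_mul _),
      intervalIntegral.integral_sub hi2 (hi.const_mul _), intervalIntegral.integral_const_mul,
      intervalIntegral.integral_const_mul]
  have h2 : ∫ x in a..b, w x ≤ 1 := by
    calc ∫ x in a..b, w x ≤ ∫ x in a..b, (1:ℝ) :=
          intervalIntegral.integral_mono_on hab hw (by simp) fun x _ => (hw0 x).2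
      _ = b - a := by simp
      _ ≤ 1 := hab1
  rw [h1] at h0
  nlinarith [sq_nonneg m]

/-- Young's inequality for a bounded weight -/
lemma young {w : ℝ → ℝ} {C ε : ℝ} (hab : a ≤ b) (hw : IntervalIntegrable (fun x => w x * (f x * g x)) volume a b)
    (hC : ∀ x ∈ Icc a b, |w x| ≤ C) (hε : 0 < ε)
    (hf : IntervalIntegrable (fun x => f x ^ 2) volume a b) (hg : IntervalIntegrable (fun x => g x ^ 2) volume a b) :
    |∫ x in a..b, w x * (f x * g x)| ≤
      C / 2 * (ε * (∫ x in a..b, f x ^ 2) + ε⁻¹ * ∫ x in a..b, g x ^ 2) := by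
  have hr : C / 2 * (ε * (∫ x in a..b, f x ^ 2) + ε⁻¹ * ∫ x in a..b, g x ^ 2) =
      ∫ x in a..b, (C / 2 * (ε * f x ^ 2) + C / 2 * (ε⁻¹ * g x ^ 2)) := by
    rw [intervalIntegral.integral_add ((hf.const_mul _).const_mul _) ((hg.const_mul _).const_mul _)]
    simp only [intervalIntegral.integral_const_mul]
    ring
  rw [hr]
  refine (intervalIntegral.abs_integral_le_integral_abs hab).trans ?_
  refine intervalIntegral.integral_mono_on hab hw.abs
    (((hf.const_mul _).const_mul _).add ((hg.const_mul _).const_mul _)) fun x hx => ?_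
  have h1 := hC x hx
  have h2 : |f x * g x| ≤ (ε * f x ^ 2 + ε⁻¹ * g x ^ 2) / 2 := by
    have h3 : 0 ≤ ε⁻¹ * (ε * |f x| - |g x|) ^ 2 := by positivity
    have h4 : ε⁻¹ * (ε * |f x| - |g x|) ^ 2 = ε * |f x| ^ 2 + ε⁻¹ * |g x| ^ 2 - 2 * (|f x| * |g x|) := by
      field_simp
      ring
    rw [abs_mul]
    rw [h4, sq_abs, sq_abs] at h3
    linarith
  rw [abs_mul]
  calc |w x| * |f x * g x| ≤ C * ((ε * f x ^ 2 + ε⁻¹ * g x ^ 2) / 2) :=
        mul_le_mul h1 h2 (abs_nonneg _) ((abs_nonneg _).trans h1)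
    _ = _ := by ring

end tools

end Pool.Agent.T2H75.RB
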