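import Pool.Agent.T2H75.RB.C1

set_option autoImplicit false

open MeasureTheory Set Filter intervalIntegral

namespace Pool.Agent.T2H75.RB

variable {ρ1 ρ2 : ℝ} {p q θ p' q' b u z v a S η : ℝ → ℝ}

lemma rh_meas (ρ1 ρ2 : ℝ) : Measurable (rh ρ1 ρ2) := by
  unfold rh pw
  exact Measurable.ite measurableSet_Iic measurable_const measurable_const

lemma rh_bd (h1 : 0 < ρ1 ∧ ρ1 ≤ 1) (h2 : 0 < ρ2 ∧ ρ2 ≤ 1) (x : ℝ) : 0 ≤ rh ρ1 ρ2 x ∧ rh ρ1 ρ2 x ≤ 1 := by
  unfold rh pw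
  split_ifs
  · exact ⟨h1.1.le, h1.2⟩
  · exact ⟨h2.1.le, h2.2⟩

lemma rh_iint (h1 : 0 < ρ1 ∧ ρ1 ≤ 1) (h2 : 0 < ρ2 ∧ ρ2 ≤ 1) (c d : ℝ) :
    IntervalIntegrable (rh ρ1 ρ2) volume c d := by
  rw [intervalIntegrable_iff]
  refine Measure.integrableOn_of_bounded (M := 1) (by simp) (rh_meas ρ1 ρ2).aestronglyMeasurable ?_
  refine Eventually.of_forall fun x => ?_
  have h := rh_bd h1 h2 x
  rw [Real.norm_eq_abs, abs_of_nonneg h.1]
  exact h.2

/-- `g = p + θ` -/
lemma Dat.hg (D : Dat ρ1 ρ2 p q θ p' q' b u z v a S η) :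
    AC 0 1 (fun x => p x + θ x) (fun x => q' x - S x) := by
  have h := D.hp.add D.hθ
  refine ⟨h.1, D.ha.2.1.sub D.hS.iintg, ?_⟩
  filter_upwards [h.2.2] with x h1 h2
  have h3 := h1 h2
  have h4 : q' x - S x - cut η x + cut η x = q' x - S x := by ring
  rw [h4] at h3
  exact h3

lemma Dat.θ0 (D : Dat ρ1 ρ2 p q θ p' q' b u z v a S η) : θ (4095 / 4096) = 0 :=
  D.bθ0 _ ⟨le_rfl, by norm_num⟩

lemma Dat.θ1 (D : Dat ρ1 ρ2 p q θ p' q' b u z v a S η) : θ 1 = 0 :=
  D.bθ0 _ ⟨by norm_num, le_rfl⟩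

lemma h01 : (0:ℝ) ≤ 1 := by norm_num
lemma hL0 : (0:ℝ) ≤ 4095 / 4096 := by norm_num
lemma hL01 : (4095 / 4096 : ℝ) ≤ 1 := by norm_num
lemma hL1 : (0:ℝ) ≤ 2047 / 2048 := by norm_num
lemma hL10 : (2047 / 2048 : ℝ) ≤ 4095 / 4096 := by norm_num

/-- on `(0,L0)`, `θ` has the derivative `η` -/
lemma Dat.hθη (D : Dat ρ1 ρ2 p q θ p' q' b u z v a S η) : AC 0 (4095 / 4096) θ η := by
  have h := D.hθ.mono h01 le_rfl hL0 hL01
  refine ⟨h.1, D.hη.iintg, ?_⟩
  filter_upwards [h.2.2] with x h1 h2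
  have h3 := h1 h2
  unfold cut at h3
  rw [if_pos h2.2] at h3
  exact h3

/-- integrals over `(0,1)` of functions that vanish on `(L0,1)` -/
lemma int_cut {f g : ℝ → ℝ} (hf : IntervalIntegrable f volume 0 1)
    (h1 : ∀ x ∈ Ioc (0:ℝ) (4095 / 4096), f x = g x) (h2 : ∀ᵐ x, x ∈ Ioc (4095 / 4096 : ℝ) 1 → f x = 0) :
    ∫ x in (0:ℝ)..1, f x = ∫ x in (0:ℝ)..(4095 / 4096), g x := by
  have hA : IntervalIntegrable f volume 0 (4095 / 4096) := hf.mono_set (by
    rw [uIcc_of_le hL0, uIcc_of_le h01]; exact Icc_subset_Icc le_rfl hL01)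
  have hB : IntervalIntegrable f volume (4095 / 4096) 1 := hf.mono_set (by
    rw [uIcc_of_le hL01, uIcc_of_le h01]; exact Icc_subset_Icc hL0 le_rfl)
  rw [← intervalIntegral.integral_add_adjacent_intervals hA hB]
  have e1 : ∫ x in (0:ℝ)..(4095 / 4096), f x = ∫ x in (0:ℝ)..(4095 / 4096), g x :=
    intervalIntegral.integral_congr_ae (Eventually.of_forall fun x hx => h1 x (by rwa [uIoc_of_le hL0] at hx))
  have e2 : ∫ x in (4095 / 4096 : ℝ)..1, f x = 0 := by
    have : ∫ x in (4095 / 4096 : ℝ)..1, f x = ∫ x in (4095 / 4096 : ℝ)..1, (0:ℝ) := by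
      refine intervalIntegral.integral_congr_ae ?_
      filter_upwards [h2] with x hx hx2
      exact hx (by rwa [uIoc_of_le hL01] at hx2)
    rw [this]; simp
  rw [e1, e2, add_zero]

/-- the energy identity -/
lemma id0 (D : Dat ρ1 ρ2 p q θ p' q' b u z v a S η) :
    (∫ x in (0:ℝ)..1, rh ρ1 ρ2 x * v x * a x) + (∫ x in (0:ℝ)..1, q x * q' x) +
      (∫ x in (0:ℝ)..1, p x * p' x) + (∫ x in (0:ℝ)..1, θ x * b x) =
    - ∫ x in (0:ℝ)..(4095 / 4096), η x ^ 2 := by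
  have e1 := D.hq.ibp h01 D.hg
  have e2 := D.hS.ibp h01 D.hv
  have e3 := D.hθη.ibp hL0 D.hη
  rw [D.bq.1, D.bq.2] at e1
  rw [D.bv.1, D.bv.2] at e2
  rw [D.θ0, D.bθ] at e3
  have ib : IntervalIntegrable b volume 0 1 := by
    rw [intervalIntegrable_iff, uIoc_of_le h01]
    exact (D.lb.integrable (by norm_num))
  have i1 : IntervalIntegrable (fun x => p' x * p x) volume 0 1 := D.hq.2.1.mul_continuousOn D.hp.cont
  have i2 : IntervalIntegrable (fun x => p' x * θ x) volume 0 1 := D.hq.2.1.mul_continuousOn D.hθ.cont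
  have i3 : IntervalIntegrable (fun x => q x * q' x) volume 0 1 := D.ha.2.1.continuousOn_mul D.hq.cont
  have i4 : IntervalIntegrable (fun x => q x * S x) volume 0 1 := D.hS.iintg.continuousOn_mul D.hq.cont
  have i5 : IntervalIntegrable (fun x => θ x * b x) volume 0 1 := ib.continuousOn_mul D.hθ.cont
  have f1 : ∫ x in (0:ℝ)..1, p' x * (p x + θ x) = (∫ x in (0:ℝ)..1, p' x * p x) + ∫ x in (0:ℝ)..1, p' x * θ x := by
    rw [← intervalIntegral.integral_add i1 i2]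
    exact intervalIntegral.integral_congr fun x _ => by ring
  have f2 : ∫ x in (0:ℝ)..1, q x * (q' x - S x) = (∫ x in (0:ℝ)..1, q x * q' x) - ∫ x in (0:ℝ)..1, q x * S x := by
    rw [← intervalIntegral.integral_sub i3 i4]
    exact intervalIntegral.integral_congr fun x _ => by ring
  have f3 : ∫ x in (0:ℝ)..1, rh ρ1 ρ2 x * a x * v x = ∫ x in (0:ℝ)..1, rh ρ1 ρ2 x * v x * a x :=
    intervalIntegral.integral_congr fun x _ => by ring
  have f4 : ∫ x in (0:ℝ)..1, S x * q x = ∫ x in (0:ℝ)..1, q x * S x :=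
    intervalIntegral.integral_congr fun x _ => by ring
  have f5 : ∫ x in (0:ℝ)..1, p' x * p x = ∫ x in (0:ℝ)..1, p x * p' x :=
    intervalIntegral.integral_congr fun x _ => by ring
  have f6 : ∫ x in (0:ℝ)..(4095 / 4096), θ x * (b x - p' x) =
      (∫ x in (0:ℝ)..1, θ x * b x) - ∫ x in (0:ℝ)..1, p' x * θ x := by
    rw [← intervalIntegral.integral_sub i5 i2]
    symm
    refine int_cut (i5.sub i2) (fun x _ => by ring) (Eventually.of_forall fun x hx => ?_)
    rw [D.bθ0 x ⟨hx.1.le, hx.2⟩]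
    ring
  have f7 : ∫ x in (0:ℝ)..(4095 / 4096), η x * η x = ∫ x in (0:ℝ)..(4095 / 4096), η x ^ 2 :=
    intervalIntegral.integral_congr fun x _ => by ring
  rw [f1, f2, f5] at e1
  rw [f3, f4] at e2
  rw [f6, f7] at e3
  linarith

/-- equipartition -/
lemma id1 (D : Dat ρ1 ρ2 p q θ p' q' b u z v a S η) :
    (∫ x in (0:ℝ)..1, rh ρ1 ρ2 x * a x * u x) + (∫ x in (0:ℝ)..1, q' x * z x) =
    - (∫ x in (0:ℝ)..1, p x ^ 2) - ∫ x in (0:ℝ)..1, θ x * p x := by
  have e1 := D.hg.ibp h01 D.hz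
  have e2 := D.hS.ibp h01 D.hu
  rw [D.bz.1, D.bz.2] at e1
  rw [D.bu.1, D.bu.2] at e2
  have i1 : IntervalIntegrable (fun x => q' x * z x) volume 0 1 := D.ha.2.1.mul_continuousOn D.hz.cont
  have i2 : IntervalIntegrable (fun x => S x * z x) volume 0 1 := D.hS.iintg.mul_continuousOn D.hz.cont
  have i3 : IntervalIntegrable (fun x => p x ^ 2) volume 0 1 := (D.hp.cont.pow 2).intervalIntegrable
  have i4 : IntervalIntegrable (fun x => θ x * p x) volume 0 1 := D.hθ.iintg.mul_continuousOn D.hp.cont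
  have f1 : ∫ x in (0:ℝ)..1, (q' x - S x) * z x = (∫ x in (0:ℝ)..1, q' x * z x) - ∫ x in (0:ℝ)..1, S x * z x := by
    rw [← intervalIntegral.integral_sub i1 i2]
    exact intervalIntegral.integral_congr fun x _ => by ring
  have f2 : ∫ x in (0:ℝ)..1, (p x + θ x) * p x = (∫ x in (0:ℝ)..1, p x ^ 2) + ∫ x in (0:ℝ)..1, θ x * p x := by
    rw [← intervalIntegral.integral_add i3 i4]
    exact intervalIntegral.integral_congr fun x _ => by ring
  rw [f1, f2] at e1
  linarith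

/-- the multiplier identity -/
lemma idm (D : Dat ρ1 ρ2 p q θ p' q' b u z v a S η) {m m' : ℝ → ℝ} (hm : AC 0 1 m m') :
    (∫ x in (0:ℝ)..1, m x * q' x * p x) + (∫ x in (0:ℝ)..1, m x * q x * p' x) =
    - (1 / 2) * (∫ x in (0:ℝ)..1, m' x * (q x ^ 2 + p x ^ 2)) + (1 / 2) * (m 1 * p 1 ^ 2 - m 0 * p 0 ^ 2) +
      (∫ x in (0:ℝ)..(4095 / 4096), m x * (η x * p x)) + ∫ x in (0:ℝ)..1, m x * (S x * p x) := by
  have e1 := (hm.mul h01 ((D.hq.mul h01 D.hq).add (D.hp.mul h01 D.hp))).integral h01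
  simp only [D.bq.1, D.bq.2] at e1
  have i1 : IntervalIntegrable (fun x => m x * q' x * p x) volume 0 1 :=
    (D.ha.2.1.continuousOn_mul hm.cont).mul_continuousOn D.hp.cont
  have i2 : IntervalIntegrable (fun x => m x * q x * p' x) volume 0 1 :=
    D.hq.2.1.continuousOn_mul (hm.cont.mul D.hq.cont)
  have i3 : IntervalIntegrable (fun x => m' x * (q x ^ 2 + p x ^ 2)) volume 0 1 :=
    hm.2.1.mul_continuousOn ((D.hq.cont.pow 2).add (D.hp.cont.pow 2))
  have i4 : IntervalIntegrable (fun x => m x * (cut η x * p x)) volume 0 1 :=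
    (D.hθ.2.1.mul_continuousOn D.hp.cont).continuousOn_mul hm.cont
  have i5 : IntervalIntegrable (fun x => m x * (S x * p x)) volume 0 1 :=
    (D.hS.iintg.mul_continuousOn D.hp.cont).continuousOn_mul hm.cont
  have f1 : ∫ x in (0:ℝ)..1, m x * (cut η x * p x) = ∫ x in (0:ℝ)..(4095 / 4096), m x * (η x * p x) := by
    refine int_cut i4 (fun x hx => ?_) (Eventually.of_forall fun x hx => ?_)
    · unfold cut
      rw [if_pos hx.2]
    · unfold cut
      rw [if_neg (not_le.2 hx.1)]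
      ring
  have f2 : ∫ x in (0:ℝ)..1, (m' x * (q x * q x + p x * p x) + m x * (p' x * q x + q x * p' x +
      ((q' x - S x - cut η x) * p x + p x * (q' x - S x - cut η x)))) =
      (∫ x in (0:ℝ)..1, m' x * (q x ^ 2 + p x ^ 2)) + 2 * (∫ x in (0:ℝ)..1, m x * q' x * p x) +
      2 * (∫ x in (0:ℝ)..1, m x * q x * p' x) - 2 * (∫ x in (0:ℝ)..1, m x * (cut η x * p x)) -
      2 * ∫ x in (0:ℝ)..1, m x * (S x * p x) := by
    rw [← intervalIntegral.integral_const_mul, ← intervalIntegral.integral_const_mul,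
      ← intervalIntegral.integral_const_mul, ← intervalIntegral.integral_const_mul,
      ← intervalIntegral.integral_add i3 (i1.const_mul 2),
      ← intervalIntegral.integral_add (i3.add (i1.const_mul 2)) (i2.const_mul 2),
      ← intervalIntegral.integral_sub ((i3.add (i1.const_mul 2)).add (i2.const_mul 2)) (i4.const_mul 2),
      ← intervalIntegral.integral_sub (((i3.add (i1.const_mul 2)).add (i2.const_mul 2)).sub (i4.const_mul 2))
        (i5.const_mul 2)]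
    exact intervalIntegral.integral_congr fun x _ => by ring
  rw [f2, f1] at e1
  linarith

end Pool.Agent.T2H75.RB
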