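import Pool.Agent.T2H75.RB.C2

set_option autoImplicit false

open MeasureTheory Set Filter intervalIntegral

namespace Pool.Agent.T2H75.RB

variable {ρ1 ρ2 : ℝ} {p q θ p' q' b u z v a S η : ℝ → ℝ}

/-! ### The piecewise linear multipliers -/

noncomputable def hh' (x : ℝ) : ℝ := if x ≤ 2047 / 2048 then 1 / 2047 else -1
noncomputable def chi' (x : ℝ) : ℝ := if x ≤ 2047 / 2048 then 0 else -4096

lemma ii_of_bdd {f : ℝ → ℝ} (hf : Measurable f) {M : ℝ} (hM : ∀ x, |f x| ≤ M) (c d : ℝ) :
    IntervalIntegrable f volume c d := by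
  rw [intervalIntegrable_iff]
  refine Measure.integrableOn_of_bounded (M := M) (by simp) hf.aestronglyMeasurable ?_
  exact Eventually.of_forall fun x => by rw [Real.norm_eq_abs]; exact hM x

lemma hh_eq (x : ℝ) : hh x = min (x / 2047) (1 - x) := by
  unfold hh
  split_ifs with h
  · rw [min_eq_left]; linarith
  · rw [min_eq_right]; push Not at h; linarith

lemma hh_ac : AC 0 1 hh hh' := by
  have hl : LipschitzWith 1 hh := by
    have e : hh = fun x => min (x / 2047) (1 - x) := funext hh_eq
    rw [e]
    have h1 : LipschitzWith 1 (fun x : ℝ => x / 2047) := by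
      refine LipschitzWith.of_dist_le_mul fun x y => ?_
      rw [Real.dist_eq, Real.dist_eq, ← sub_div, abs_div]
      simp only [NNReal.coe_one, one_mul]
      rw [abs_of_pos (by norm_num : (0:ℝ) < 2047)]
      exact div_le_self (abs_nonneg _) (by norm_num)
    have h2 : LipschitzWith 1 (fun x : ℝ => 1 - x) := by
      refine LipschitzWith.of_dist_le_mul fun x y => ?_
      rw [Real.dist_eq, Real.dist_eq]
      simp only [NNReal.coe_one, one_mul]
      rw [show 1 - x - (1 - y) = -(x - y) by ring, abs_neg]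
    have h3 := h1.min h2
    simpa using h3
  refine ⟨(hl.lipschitzOnWith (s := uIcc 0 1)).absolutelyContinuousOnInterval, ?_, ?_⟩
  · refine ii_of_bdd (M := 1) ?_ (fun x => ?_) 0 1
    · unfold hh'
      exact Measurable.ite measurableSet_Iic measurable_const measurable_const
    · unfold hh'
      split_ifs <;> norm_num
  · have h0 : ∀ᵐ x : ℝ, x ≠ 2047 / 2048 := by
      rw [ae_iff]; simp
    filter_upwards [h0] with x hx _
    unfold hh'
    rcases lt_or_gt_of_ne hx with h | h
    · rw [if_pos h.le]
      have h1 : HasDerivAt (fun x : ℝ => x / 2047) (1 / 2047) x := (hasDerivAt_id x).div_const _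
      refine h1.congr_of_eventuallyEq ?_
      filter_upwards [Iio_mem_nhds h] with y hy
      unfold hh
      rw [if_pos (le_of_lt hy)]
    · rw [if_neg (not_le.2 h)]
      have h1 : HasDerivAt (fun x : ℝ => 1 - x) (-1) x := (hasDerivAt_id x).const_sub 1
      refine h1.congr_of_eventuallyEq ?_
      filter_upwards [Ioi_mem_nhds h] with y hy
      unfold hh
      rw [if_neg (not_le.2 hy)]

lemma mm_ac : AC 0 1 mm (fun _ => -2) := by
  have hl : LipschitzWith 2 mm := by
    refine LipschitzWith.of_dist_le_mul fun x y => ?_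
    rw [Real.dist_eq, Real.dist_eq]
    unfold mm
    rw [show 1 - 2 * x - (1 - 2 * y) = -(2 * (x - y)) by ring, abs_neg, abs_mul]
    simp
  refine ⟨(hl.lipschitzOnWith (s := uIcc 0 1)).absolutelyContinuousOnInterval, by simp, ?_⟩
  refine Eventually.of_forall fun x _ => ?_
  have h1 : HasDerivAt (fun x : ℝ => 1 - 2 * x) (-(2 * 1)) x := ((hasDerivAt_id x).const_mul 2).const_sub 1
  have h2 : mm = fun x : ℝ => 1 - 2 * x := rfl
  rw [h2]
  convert h1 using 1
  norm_num

lemma chi_eq {x : ℝ} (hx : x ≤ 4095 / 4096) : chi x = min 1 (4096 * (4095 / 4096 - x)) := by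
  unfold chi
  split_ifs with h
  · rw [min_eq_left]; linarith
  · rw [min_eq_right]; push Not at h; linarith

lemma chi_bd (x : ℝ) : 0 ≤ chi x ∧ chi x ≤ 1 := by
  unfold chi
  split_ifs with h1 h2
  · norm_num
  · push Not at h1
    constructor <;> linarith
  · norm_num

lemma chi_ac : AC 0 (4095 / 4096) chi chi' := by
  have hl : LipschitzOnWith 4096 chi (uIcc 0 (4095 / 4096)) := by
    have h1 : LipschitzWith 4096 (fun x : ℝ => min 1 (4096 * (4095 / 4096 - x))) := by
      have h2 : LipschitzWith 4096 (fun x : ℝ => 4096 * (4095 / 4096 - x)) := by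
        refine LipschitzWith.of_dist_le_mul fun x y => ?_
        rw [Real.dist_eq, Real.dist_eq,
          show 4096 * (4095 / 4096 - x) - 4096 * (4095 / 4096 - y) = -(4096 * (x - y)) by ring, abs_neg, abs_mul]
        simp
      have h3 := (LipschitzWith.const (1:ℝ) (α := ℝ)).min h2
      simpa using h3
    intro x hx y hy
    rw [uIcc_of_le hL0] at hx hy
    rw [chi_eq hx.2, chi_eq hy.2]
    exact h1 x y
  refine ⟨hl.absolutelyContinuousOnInterval, ?_, ?_⟩
  · refine ii_of_bdd (M := 4096) ?_ (fun x => ?_) 0 _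
    · unfold chi'
      exact Measurable.ite measurableSet_Iic measurable_const measurable_const
    · unfold chi'
      split_ifs <;> norm_num
  · have h0 : ∀ᵐ x : ℝ, x ≠ 2047 / 2048 := by
      rw [ae_iff]; simp
    have h00 : ∀ᵐ x : ℝ, x ≠ 4095 / 4096 := by
      rw [ae_iff]; simp
    filter_upwards [h0, h00] with x hx hx0 hx1
    unfold chi'
    rcases lt_or_gt_of_ne hx with h | h
    · rw [if_pos h.le]
      refine (hasDerivAt_const x (1:ℝ)).congr_of_eventuallyEq ?_
      filter_upwards [Iio_mem_nhds h] with y hy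
      unfold chi
      rw [if_pos (le_of_lt hy)]
    · rw [if_neg (not_le.2 h)]
      have h1 : HasDerivAt (fun x : ℝ => 4096 * (4095 / 4096 - x)) (4096 * (-1)) x :=
        ((hasDerivAt_id x).const_sub _).const_mul _
      rw [show (4096 * (-1) : ℝ) = -4096 by ring] at h1
      refine h1.congr_of_eventuallyEq ?_
      have h2 : x < 4095 / 4096 := lt_of_le_of_ne hx1.2 hx0
      filter_upwards [Ioi_mem_nhds h, Iio_mem_nhds h2] with y hy hy2
      unfold chi
      rw [if_neg (not_le.2 hy), if_pos (le_of_lt hy2)]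

end Pool.Agent.T2H75.RB
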