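import Pool.Agent.T2H75.RB.C3

set_option autoImplicit false

open MeasureTheory Set Filter intervalIntegral

namespace Pool.Agent.T2H75.RB

section tools

variable {a b : ℝ} {f F : ℝ → ℝ}

lemma int_sq_mono (hab : a ≤ b) (hF : ContinuousOn F (uIcc a b)) {c d : ℝ} (hac : a ≤ c) (hcd : c ≤ d) (hdb : d ≤ b) :
    ∫ x in c..d, F x ^ 2 ≤ ∫ x in a..b, F x ^ 2 := by
  have hi : IntervalIntegrable (fun x => F x ^ 2) volume a b := (hF.pow 2).intervalIntegrable
  exact intervalIntegral.integral_mono_interval hac hcd hdb (Eventually.of_forall fun x => sq_nonneg _) hi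

lemma pt_left (hab : a ≤ b) (hf : AC a b f F) (hF : ContinuousOn F (uIcc a b)) (ha : f a = 0) {x : ℝ}
    (hx : x ∈ Icc a b) : f x ^ 2 ≤ (x - a) * ∫ s in a..b, F s ^ 2 := by
  have h1 := hf.primitive hab hx
  have hs : uIcc a x ⊆ uIcc a b := by
    rw [uIcc_of_le hx.1, uIcc_of_le hab]; exact Icc_subset_Icc le_rfl hx.2
  have h2 := cs_one hx.1 (hF.mono hs)
  rw [h1, ha, sub_zero] at h2
  have h3 := int_sq_mono hab hF le_rfl hx.1 hx.2
  exact h2.trans (mul_le_mul_of_nonneg_left h3 (by linarith [hx.1]))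

lemma pt_right (hab : a ≤ b) (hf : AC a b f F) (hF : ContinuousOn F (uIcc a b)) (hb : f b = 0) {x c : ℝ}
    (hx : x ∈ Icc a b) (hac : a ≤ c) (hcx : c ≤ x) : f x ^ 2 ≤ (b - x) * ∫ s in c..b, F s ^ 2 := by
  have h1 := (hf.mono hab hx.1 hx.2 le_rfl).integral hx.2
  have hs : uIcc x b ⊆ uIcc a b := by
    rw [uIcc_of_le hx.2, uIcc_of_le hab]; exact Icc_subset_Icc hx.1 le_rfl
  have hs2 : uIcc c b ⊆ uIcc a b := by
    rw [uIcc_of_le (hcx.trans hx.2), uIcc_of_le hab]; exact Icc_subset_Icc hac le_rfl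
  have h2 := cs_one hx.2 (hF.mono hs)
  rw [h1, hb, zero_sub, neg_sq] at h2
  have h3 := int_sq_mono (hcx.trans hx.2) (hF.mono hs2) hcx hx.2 le_rfl
  exact h2.trans (mul_le_mul_of_nonneg_left h3 (by linarith [hx.2]))

lemma poinc {c : ℝ} (hc0 : 0 ≤ c) (hc1 : c ≤ 1) (hf : AC 0 c f F) (hF : ContinuousOn F (uIcc 0 c)) (ha : f 0 = 0) :
    ∫ x in (0:ℝ)..c, f x ^ 2 ≤ (1 / 2) * ∫ x in (0:ℝ)..c, F x ^ 2 := by
  set K := ∫ x in (0:ℝ)..c, F x ^ 2 with hK
  have hK0 : 0 ≤ K := intervalIntegral.integral_nonneg hc0 fun x _ => sq_nonneg _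
  have h1 : ∫ x in (0:ℝ)..c, f x ^ 2 ≤ ∫ x in (0:ℝ)..c, x * K := by
    refine intervalIntegral.integral_mono_on hc0 (hf.cont.pow 2).intervalIntegrable
      ((continuous_id.mul continuous_const).intervalIntegrable _ _) fun x hx => ?_
    have := pt_left hc0 hf hF ha hx
    rw [sub_zero] at this
    exact this
  have h2 : ∫ x in (0:ℝ)..c, x * K = c ^ 2 / 2 * K := by
    rw [intervalIntegral.integral_mul_const, integral_id]
    ring
  rw [h2] at h1
  have h3 : c ^ 2 ≤ 1 := by nlinarith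
  have h4 : c ^ 2 * K ≤ 1 * K := mul_le_mul_of_nonneg_right h3 hK0
  linarith

end tools

variable {ρ1 ρ2 : ℝ} {p q θ p' q' b u z v a S η : ℝ → ℝ}

lemma split_q (D : Dat ρ1 ρ2 p q θ p' q' b u z v a S η) :
    ∫ x in (0:ℝ)..1, q x ^ 2 = (∫ x in (0:ℝ)..(2047 / 2048), q x ^ 2) + ∫ x in (2047 / 2048 : ℝ)..1, q x ^ 2 := by
  have hi : IntervalIntegrable (fun x => q x ^ 2) volume 0 1 := (D.hq.cont.pow 2).intervalIntegrable
  rw [intervalIntegral.integral_add_adjacent_intervals]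
  · exact hi.mono_set (by rw [uIcc_of_le hL1, uIcc_of_le h01]; exact Icc_subset_Icc le_rfl (by norm_num))
  · exact hi.mono_set (by
      rw [uIcc_of_le (by norm_num : (2047/2048:ℝ) ≤ 1), uIcc_of_le h01]; exact Icc_subset_Icc hL1 le_rfl)

/-- the cut-off multiplier for the heat equation -/
lemma T4 (D : Dat ρ1 ρ2 p q θ p' q' b u z v a S η) :
    ∫ x in (0:ℝ)..1, chi x * b x * v x ≤
      - (∫ x in (0:ℝ)..(2047 / 2048), q x ^ 2) + (1 / 2) * (∫ x in (2047 / 2048 : ℝ)..1, q x ^ 2) +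
      (1 / 20) * (∫ x in (0:ℝ)..1, q x ^ 2) + (1 / 20) * (∫ x in (2047 / 2048 : ℝ)..1, q x ^ 2) +
      15 * ∫ x in (0:ℝ)..(4095 / 4096), η x ^ 2 := by
  set Q1 := ∫ x in (0:ℝ)..(2047 / 2048), q x ^ 2 with hQ1
  set Q2 := ∫ x in (2047 / 2048 : ℝ)..1, q x ^ 2 with hQ2
  set Y := ∫ x in (0:ℝ)..(4095 / 4096), η x ^ 2 with hY
  have hv0 : AC 0 (4095 / 4096) v q := D.hv.mono h01 le_rfl hL0 hL01
  have hq0 : AC 0 (4095 / 4096) q p' := D.hq.mono h01 le_rfl hL0 hL01
  have hφ := chi_ac.mul hL0 hv0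
  have chi0 : chi (4095 / 4096) = 0 := by unfold chi; norm_num
  have e1 := hφ.ibp hL0 D.hη
  have e2 := hφ.ibp hL0 hq0
  simp only [chi0, D.bv.1, zero_mul, mul_zero, sub_zero] at e1 e2
  have ib : IntervalIntegrable b volume 0 1 := by
    rw [intervalIntegrable_iff, uIoc_of_le h01]
    exact (D.lb.integrable (by norm_num))
  have hs0 : uIcc (0:ℝ) (4095 / 4096) ⊆ uIcc 0 1 := by
    rw [uIcc_of_le hL0, uIcc_of_le h01]; exact Icc_subset_Icc le_rfl hL01
  have ib0 : IntervalIntegrable b volume 0 (4095 / 4096) := ib.mono_set hs0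
  have hcv : ContinuousOn (fun x => chi x * v x) (uIcc 0 (4095 / 4096)) := hφ.cont
  -- ∫ chi b v over (0,1)
  have chim : Measurable chi := by
    unfold chi
    exact Measurable.ite measurableSet_Iic measurable_const
      (Measurable.ite measurableSet_Iic (by fun_prop) measurable_const)
  have ichib : IntervalIntegrable (fun x => chi x * b x) volume 0 1 := by
    rw [intervalIntegrable_iff] at ib ⊢
    refine ib.bdd_mul (c := 1) chim.aestronglyMeasurable ?_
    refine Eventually.of_forall fun x => ?_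
    rw [Real.norm_eq_abs, abs_of_nonneg (chi_bd x).1]
    exact (chi_bd x).2
  have f0 : ∫ x in (0:ℝ)..1, chi x * b x * v x = ∫ x in (0:ℝ)..(4095 / 4096), chi x * b x * v x := by
    refine int_cut (ichib.mul_continuousOn D.hv.cont) (fun x _ => rfl) ?_
    filter_upwards [D.bb] with x h1 h2
    rw [h1 h2]; ring
  have i1 : IntervalIntegrable (fun x => chi x * v x * b x) volume 0 (4095 / 4096) := ib0.continuousOn_mul hcv
  have i2 : IntervalIntegrable (fun x => chi x * v x * p' x) volume 0 (4095 / 4096) := hq0.2.1.continuousOn_mul hcv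
  have f1 : ∫ x in (0:ℝ)..(4095 / 4096), chi x * v x * (b x - p' x) =
      (∫ x in (0:ℝ)..(4095 / 4096), chi x * b x * v x) - ∫ x in (0:ℝ)..(4095 / 4096), chi x * v x * p' x := by
    have : ∫ x in (0:ℝ)..(4095 / 4096), chi x * b x * v x = ∫ x in (0:ℝ)..(4095 / 4096), chi x * v x * b x :=
      intervalIntegral.integral_congr fun x _ => by ring
    rw [this, ← intervalIntegral.integral_sub i1 i2]
    exact intervalIntegral.integral_congr fun x _ => by ring
  -- the four integrals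
  have j1 : IntervalIntegrable (fun x => chi' x * (v x * η x)) volume 0 (4095 / 4096) :=
    chi_ac.2.1.mul_continuousOn (hv0.cont.mul D.hη.cont)
  have j2 : IntervalIntegrable (fun x => chi x * (q x * η x)) volume 0 (4095 / 4096) :=
    (chi_ac.cont.mul (hq0.cont.mul D.hη.cont)).intervalIntegrable
  have j3 : IntervalIntegrable (fun x => chi' x * (v x * q x)) volume 0 (4095 / 4096) :=
    chi_ac.2.1.mul_continuousOn (hv0.cont.mul hq0.cont)
  have j4 : IntervalIntegrable (fun x => chi x * q x ^ 2) volume 0 (4095 / 4096) :=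
    (chi_ac.cont.mul (hq0.cont.pow 2)).intervalIntegrable
  have f2 : ∫ x in (0:ℝ)..(4095 / 4096), (chi' x * v x + chi x * q x) * η x =
      (∫ x in (0:ℝ)..(4095 / 4096), chi' x * (v x * η x)) + ∫ x in (0:ℝ)..(4095 / 4096), chi x * (q x * η x) := by
    rw [← intervalIntegral.integral_add j1 j2]
    exact intervalIntegral.integral_congr fun x _ => by ring
  have f3 : ∫ x in (0:ℝ)..(4095 / 4096), (chi' x * v x + chi x * q x) * q x =
      (∫ x in (0:ℝ)..(4095 / 4096), chi' x * (v x * q x)) + ∫ x in (0:ℝ)..(4095 / 4096), chi x * q x ^ 2 := by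
    rw [← intervalIntegral.integral_add j3 j4]
    exact intervalIntegral.integral_congr fun x _ => by ring
  -- chi' integrals live on (L1, L0)
  have g : ∀ {w : ℝ → ℝ}, IntervalIntegrable (fun x => chi' x * w x) volume 0 (4095 / 4096) →
      ∫ x in (0:ℝ)..(4095 / 4096), chi' x * w x = ∫ x in (2047 / 2048 : ℝ)..(4095 / 4096), (-4096) * w x := by
    intro w hw
    have hA : IntervalIntegrable (fun x => chi' x * w x) volume 0 (2047 / 2048) := hw.mono_set (by
      rw [uIcc_of_le hL1, uIcc_of_le hL0]; exact Icc_subset_Icc le_rfl hL10)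
    have hB : IntervalIntegrable (fun x => chi' x * w x) volume (2047 / 2048) (4095 / 4096) := hw.mono_set (by
      rw [uIcc_of_le hL10, uIcc_of_le hL0]; exact Icc_subset_Icc hL1 le_rfl)
    rw [← intervalIntegral.integral_add_adjacent_intervals hA hB]
    have e1 : ∫ x in (0:ℝ)..(2047 / 2048), chi' x * w x = 0 := by
      have : ∫ x in (0:ℝ)..(2047 / 2048), chi' x * w x = ∫ x in (0:ℝ)..(2047 / 2048), (0:ℝ) := by
        refine intervalIntegral.integral_congr_ae (Eventually.of_forall fun x hx => ?_)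
        rw [uIoc_of_le hL1] at hx
        unfold chi'
        rw [if_pos hx.2]; ring
      rw [this]; simp
    rw [e1, zero_add]
    refine intervalIntegral.integral_congr_ae (Eventually.of_forall fun x hx => ?_)
    rw [uIoc_of_le hL10] at hx
    unfold chi'
    rw [if_neg (not_le.2 hx.1)]
  have hv1 : AC (2047 / 2048) (4095 / 4096) v q := D.hv.mono h01 hL1 hL10 hL01
  have g1 : ∫ x in (0:ℝ)..(4095 / 4096), chi' x * (v x * q x) =
      -2048 * (v (4095 / 4096) ^ 2 - v (2047 / 2048) ^ 2) := by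
    rw [g j3, intervalIntegral.integral_const_mul]
    have h := (hv1.mul hL10 hv1).integral hL10
    have h2 : ∫ x in (2047 / 2048 : ℝ)..(4095 / 4096), (q x * v x + v x * q x) =
        2 * ∫ x in (2047 / 2048 : ℝ)..(4095 / 4096), v x * q x := by
      rw [← intervalIntegral.integral_const_mul]
      exact intervalIntegral.integral_congr fun x _ => by ring
    rw [h2] at h
    linarith
  have hvx : ∀ x ∈ Icc (2047 / 2048 : ℝ) (4095 / 4096), v x ^ 2 ≤ (1 / 2048) * Q2 := by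
    intro x hx
    have h := pt_right h01 D.hv D.hq.cont D.bv.2 (x := x) (c := 2047 / 2048)
      ⟨hL1.trans hx.1, hx.2.trans hL01⟩ hL1 hx.1
    refine h.trans (mul_le_mul_of_nonneg_right (by linarith [hx.1]) ?_)
    exact intervalIntegral.integral_nonneg (by norm_num) fun x _ => sq_nonneg _
  have hvL0 : v (4095 / 4096) ^ 2 ≤ (1 / 4096) * Q2 := by
    have h := pt_right h01 D.hv D.hq.cont D.bv.2 (x := 4095 / 4096) (c := 2047 / 2048)
      ⟨hL0, hL01⟩ hL1 hL10
    norm_num at h ⊢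
    exact h
  -- first Young
  have y1 : |∫ x in (0:ℝ)..(4095 / 4096), chi x * (q x * η x)| ≤
      1 / 2 * ((1 / 10) * (∫ x in (0:ℝ)..(4095 / 4096), q x ^ 2) + (1 / 10)⁻¹ * Y) :=
    young hL0 j2 (fun x _ => by rw [abs_of_nonneg (chi_bd x).1]; exact (chi_bd x).2) (by norm_num)
      (hq0.cont.pow 2).intervalIntegrable (D.hη.cont.pow 2).intervalIntegrable
  have y1' : ∫ x in (0:ℝ)..(4095 / 4096), q x ^ 2 ≤ ∫ x in (0:ℝ)..1, q x ^ 2 :=
    int_sq_mono h01 D.hq.cont le_rfl hL0 hL01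
  -- second Young
  have hη1 : ContinuousOn η (uIcc (2047 / 2048) (4095 / 4096)) := D.hη.cont.mono (by
    rw [uIcc_of_le hL10, uIcc_of_le hL0]; exact Icc_subset_Icc hL1 le_rfl)
  have y2 : |∫ x in (2047 / 2048 : ℝ)..(4095 / 4096), (-4096) * (v x * η x)| ≤
      4096 / 2 * ((1024 / 5) * (∫ x in (2047 / 2048 : ℝ)..(4095 / 4096), v x ^ 2) +
        (1024 / 5)⁻¹ * ∫ x in (2047 / 2048 : ℝ)..(4095 / 4096), η x ^ 2) := by
    refine young hL10 ?_ (fun x _ => by norm_num) (by norm_num)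
      (hv1.cont.pow 2).intervalIntegrable (hη1.pow 2).intervalIntegrable
    exact ((continuousOn_const (c := (-4096:ℝ))).mul (hv1.cont.mul hη1)).intervalIntegrable
  have y2a : ∫ x in (2047 / 2048 : ℝ)..(4095 / 4096), v x ^ 2 ≤ 1 / 4096 * ((1 / 2048) * Q2) := by
    have h : ∫ x in (2047 / 2048 : ℝ)..(4095 / 4096), v x ^ 2 ≤
        ∫ x in (2047 / 2048 : ℝ)..(4095 / 4096), (1 / 2048) * Q2 :=
      intervalIntegral.integral_mono_on hL10 (hv1.cont.pow 2).intervalIntegrable (by simp) hvx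
    refine h.trans (le_of_eq ?_)
    rw [intervalIntegral.integral_const]
    norm_num
  have y2b : ∫ x in (2047 / 2048 : ℝ)..(4095 / 4096), η x ^ 2 ≤ Y :=
    int_sq_mono hL0 D.hη.cont hL1 hL10 le_rfl
  -- lower bound for ∫ chi q²
  have k1 : Q1 ≤ ∫ x in (0:ℝ)..(4095 / 4096), chi x * q x ^ 2 := by
    have hs : uIcc (0:ℝ) (2047 / 2048) ⊆ uIcc 0 (4095 / 4096) := by
      rw [uIcc_of_le hL1, uIcc_of_le hL0]; exact Icc_subset_Icc le_rfl hL10
    have h1 : Q1 = ∫ x in (0:ℝ)..(2047 / 2048), chi x * q x ^ 2 := by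
      refine intervalIntegral.integral_congr_ae (Eventually.of_forall fun x hx => ?_)
      rw [uIoc_of_le hL1] at hx
      unfold chi
      rw [if_pos hx.2]; ring
    rw [h1]
    exact intervalIntegral.integral_mono_interval le_rfl hL1 hL10
      (Eventually.of_forall fun x => mul_nonneg (chi_bd x).1 (sq_nonneg _)) j4
  have hQ20 : 0 ≤ Q2 := intervalIntegral.integral_nonneg (by norm_num) fun x _ => sq_nonneg _
  have hv20 : 0 ≤ v (2047 / 2048) ^ 2 := sq_nonneg _
  rw [f2, f1, g j1] at e1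
  rw [f3, g1] at e2
  have z1 := (abs_le.1 y1).1
  have z2 := (abs_le.1 y2).1
  rw [intervalIntegral.integral_const_mul] at e1 z2
  norm_num at z1 z2 y2a hvL0
  rw [f0]
  linarith

end Pool.Agent.T2H75.RB
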