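import Pool.Agent.T2H75.RB.C4

set_option autoImplicit false

open MeasureTheory Set Filter intervalIntegral

namespace Pool.Agent.T2H75.RB

variable {ρ1 ρ2 : ℝ} {p q θ p' q' b u z v a S η : ℝ → ℝ}

/-- estimate of the force -/
lemma S_est (D : Dat ρ1 ρ2 p q θ p' q' b u z v a S η) :
    ∫ x in (0:ℝ)..1, S x ^ 2 ≤ 4 * (p 0 ^ 2 + p 1 ^ 2) + ∫ x in (0:ℝ)..1, (p x + θ x) ^ 2 := by
  set X2 := ∫ x in (0:ℝ)..1, rh ρ1 ρ2 x * a x ^ 2 with hX2
  set iS := ∫ x in (0:ℝ)..1, S x ^ 2 with hiS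
  set G := ∫ x in (0:ℝ)..1, (p x + θ x) ^ 2 with hG
  have hr := fun x => rh_bd D.hρ1 D.hρ2 x
  have ra := rh_iint D.hρ1 D.hρ2 0 1
  -- s1
  have s1 : ∫ x in (0:ℝ)..1, S x = p 0 - p 1 := by
    have h1 := D.hg.integral h01
    have h2 := D.ha.integral h01
    rw [intervalIntegral.integral_sub D.ha.2.1 D.hS.iintg, h2, D.ba.1, D.ba.2, D.bθ, D.θ1] at h1
    linarith
  -- s2
  have e1 := D.hS.ibp h01 D.ha
  have e2 := D.hS.ibp h01 D.hg
  rw [D.ba.1, D.ba.2] at e1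
  simp only [D.bθ, D.θ1, add_zero] at e2
  have i1 : IntervalIntegrable (fun x => S x * q' x) volume 0 1 := D.ha.2.1.continuousOn_mul D.hS.cont
  have i2 : IntervalIntegrable (fun x => S x ^ 2) volume 0 1 := (D.hS.cont.pow 2).intervalIntegrable
  have i3 : IntervalIntegrable (fun x => rh ρ1 ρ2 x * a x ^ 2) volume 0 1 := ra.mul_continuousOn (D.ha.cont.pow 2)
  have i4 : IntervalIntegrable (fun x => (p x + θ x) ^ 2) volume 0 1 := (D.hg.cont.pow 2).intervalIntegrable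
  have i5 : IntervalIntegrable (fun x => rh ρ1 ρ2 x * a x * (p x + θ x)) volume 0 1 :=
    (ra.mul_continuousOn D.ha.cont).mul_continuousOn D.hg.cont
  have f1 : ∫ x in (0:ℝ)..1, rh ρ1 ρ2 x * a x * a x = X2 :=
    intervalIntegral.integral_congr fun x _ => by ring
  have f2 : ∫ x in (0:ℝ)..1, S x * (q' x - S x) = (∫ x in (0:ℝ)..1, S x * q' x) - iS := by
    rw [hiS, ← intervalIntegral.integral_sub i1 i2]
    exact intervalIntegral.integral_congr fun x _ => by ring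
  rw [f1] at e1
  rw [f2] at e2
  have y1 : ∫ x in (0:ℝ)..1, rh ρ1 ρ2 x * a x * (p x + θ x) ≤ (1 / 4) * X2 + G := by
    rw [hX2, hG, ← intervalIntegral.integral_const_mul, ← intervalIntegral.integral_add (i3.const_mul _) i4]
    refine intervalIntegral.integral_mono_on h01 i5 ((i3.const_mul _).add i4) fun x _ => ?_
    have h := hr x
    nlinarith [mul_nonneg h.1 (sq_nonneg (a x / 2 - (p x + θ x))), mul_nonneg (sub_nonneg.2 h.2) (sq_nonneg (p x + θ x))]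
  -- s3
  have hX20 : 0 ≤ X2 := intervalIntegral.integral_nonneg h01 fun x _ => mul_nonneg (hr x).1 (sq_nonneg _)
  have s3 : ∀ x ∈ Icc (0:ℝ) 1, ∀ y ∈ Icc (0:ℝ) 1, x ≤ y → |S y - S x| ≤ Real.sqrt X2 := by
    intro x hx y hy hxy
    have h1 := (D.hS.mono h01 hx.1 hxy hy.2).integral hxy
    have hs : uIcc x y ⊆ uIcc 0 1 := by
      rw [uIcc_of_le hxy, uIcc_of_le h01]; exact Icc_subset_Icc hx.1 hy.2
    have h2 := cs_weight hxy (by linarith [hx.1, hy.2]) (rh_iint D.hρ1 D.hρ2 x y) hr (D.ha.cont.mono hs)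
    have h3 : ∫ s in x..y, rh ρ1 ρ2 s * a s ^ 2 ≤ X2 :=
      intervalIntegral.integral_mono_interval hx.1 hxy hy.2
        (Eventually.of_forall fun s => mul_nonneg (hr s).1 (sq_nonneg _)) i3
    rw [h1] at h2
    exact Real.abs_le_sqrt (h2.trans h3)
  have hmean : ∀ c : ℝ, (∀ y ∈ Icc (0:ℝ) 1, |c - S y| ≤ Real.sqrt X2) → |c - (p 0 - p 1)| ≤ Real.sqrt X2 := by
    intro c hc
    have h1 : c - (p 0 - p 1) = ∫ x in (0:ℝ)..1, (c - S x) := by
      rw [intervalIntegral.integral_sub (by simp) D.hS.iintg, s1]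
      simp
    rw [h1]
    refine (intervalIntegral.abs_integral_le_integral_abs h01).trans ?_
    have h2 : ∫ x in (0:ℝ)..1, |c - S x| ≤ ∫ x in (0:ℝ)..1, Real.sqrt X2 := by
      refine intervalIntegral.integral_mono_on h01 ?_ (by simp) hc
      exact ((continuousOn_const.sub D.hS.cont).abs).intervalIntegrable
    simpa using h2
  have t1 := hmean (S 1) fun y hy => s3 y hy 1 ⟨h01, le_rfl⟩ hy.2
  have t0 := hmean (S 0) fun y hy => by
    rw [abs_sub_comm]; exact s3 0 ⟨le_rfl, h01⟩ y hy hy.1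
  set X := Real.sqrt X2 with hX
  have hX0 : 0 ≤ X := Real.sqrt_nonneg _
  have hXX : X ^ 2 = X2 := Real.sq_sqrt hX20
  -- combination
  have c1 : X2 + iS = (S 0 * p 0 - S 1 * p 1) + ∫ x in (0:ℝ)..1, rh ρ1 ρ2 x * a x * (p x + θ x) := by linarith
  have c2 : S 0 * p 0 - S 1 * p 1 ≤ (p 0 - p 1) ^ 2 + X * (|p 0| + |p 1|) := by
    have h0 : (S 0 - (p 0 - p 1)) * p 0 ≤ X * |p 0| := by
      calc (S 0 - (p 0 - p 1)) * p 0 ≤ |(S 0 - (p 0 - p 1)) * p 0| := le_abs_self _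
        _ = |S 0 - (p 0 - p 1)| * |p 0| := abs_mul _ _
        _ ≤ X * |p 0| := mul_le_mul_of_nonneg_right t0 (abs_nonneg _)
    have h1 : -((S 1 - (p 0 - p 1)) * p 1) ≤ X * |p 1| := by
      calc -((S 1 - (p 0 - p 1)) * p 1) ≤ |(S 1 - (p 0 - p 1)) * p 1| := neg_le_abs _
        _ = |S 1 - (p 0 - p 1)| * |p 1| := abs_mul _ _
        _ ≤ X * |p 1| := mul_le_mul_of_nonneg_right t1 (abs_nonneg _)
    nlinarith
  have c3 : X * (|p 0| + |p 1|) ≤ (1 / 4) * X ^ 2 + 2 * (p 0 ^ 2 + p 1 ^ 2) := by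
    nlinarith [sq_nonneg (X / 2 - (|p 0| + |p 1|)), sq_nonneg (|p 0| - |p 1|), sq_abs (p 0), sq_abs (p 1)]
  have c4 : (p 0 - p 1) ^ 2 ≤ 2 * (p 0 ^ 2 + p 1 ^ 2) := by nlinarith [sq_nonneg (p 0 + p 1)]
  rw [hXX] at c3
  linarith

/-- estimate of the acceleration -/
lemma a_est (D : Dat ρ1 ρ2 p q θ p' q' b u z v a S η) :
    ∫ x in (0:ℝ)..1, a x ^ 2 ≤ 3 * (∫ x in (0:ℝ)..1, (p x + θ x) ^ 2) + 3 * p 0 ^ 2 + 3 * ∫ x in (0:ℝ)..1, S x ^ 2 := by
  have i2 : IntervalIntegrable (fun x => S x ^ 2) volume 0 1 := (D.hS.cont.pow 2).intervalIntegrable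
  have i4 : IntervalIntegrable (fun x => (p x + θ x) ^ 2) volume 0 1 := (D.hg.cont.pow 2).intervalIntegrable
  set iS := ∫ x in (0:ℝ)..1, S x ^ 2 with hiS
  have h1 : ∫ x in (0:ℝ)..1, a x ^ 2 ≤ ∫ x in (0:ℝ)..1, (3 * (p x + θ x) ^ 2 + (3 * p 0 ^ 2 + 3 * iS)) := by
    refine intervalIntegral.integral_mono_on h01 (D.ha.cont.pow 2).intervalIntegrable
      ((i4.const_mul _).add (by simp)) fun x hx => ?_
    have e1 := D.ha.primitive h01 hx
    have e2 := D.hg.primitive h01 hx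
    have hs : uIcc 0 x ⊆ uIcc 0 1 := by
      rw [uIcc_of_le hx.1, uIcc_of_le h01]; exact Icc_subset_Icc le_rfl hx.2
    have hSx : ContinuousOn S (uIcc 0 x) := D.hS.cont.mono hs
    rw [intervalIntegral.integral_sub (D.ha.2.1.mono_set hs) hSx.intervalIntegrable, e1] at e2
    simp only [D.bθ, D.ba.1, add_zero, sub_zero] at e2
    have e3 := cs_one hx.1 hSx
    have e4 := int_sq_mono h01 D.hS.cont le_rfl hx.1 hx.2
    have e5 : (∫ s in (0:ℝ)..x, S s) ^ 2 ≤ iS := by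
      have hn : 0 ≤ ∫ s in (0:ℝ)..x, S s ^ 2 := intervalIntegral.integral_nonneg hx.1 fun s _ => sq_nonneg _
      nlinarith [hx.2]
    have e6 : a x = (p x + θ x) - p 0 + ∫ s in (0:ℝ)..x, S s := by linarith
    rw [e6]
    nlinarith [sq_nonneg ((p x + θ x) + p 0), sq_nonneg ((p x + θ x) - ∫ s in (0:ℝ)..x, S s),
      sq_nonneg (p 0 + ∫ s in (0:ℝ)..x, S s)]
  refine h1.trans (le_of_eq ?_)
  rw [intervalIntegral.integral_add (i4.const_mul _) (by simp), intervalIntegral.integral_const_mul]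
  simp
  ring

lemma G_est (D : Dat ρ1 ρ2 p q θ p' q' b u z v a S η) :
    ∫ x in (0:ℝ)..1, (p x + θ x) ^ 2 ≤ 2 * (∫ x in (0:ℝ)..1, p x ^ 2) + 2 * ∫ x in (0:ℝ)..1, θ x ^ 2 := by
  have i1 : IntervalIntegrable (fun x => p x ^ 2) volume 0 1 := (D.hp.cont.pow 2).intervalIntegrable
  have i2 : IntervalIntegrable (fun x => θ x ^ 2) volume 0 1 := (D.hθ.cont.pow 2).intervalIntegrable
  have i4 : IntervalIntegrable (fun x => (p x + θ x) ^ 2) volume 0 1 := (D.hg.cont.pow 2).intervalIntegrable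
  rw [← intervalIntegral.integral_const_mul, ← intervalIntegral.integral_const_mul,
    ← intervalIntegral.integral_add (i1.const_mul _) (i2.const_mul _)]
  refine intervalIntegral.integral_mono_on h01 i4 ((i1.const_mul _).add (i2.const_mul _)) fun x _ => ?_
  nlinarith [sq_nonneg (p x - θ x)]

lemma θ_est (D : Dat ρ1 ρ2 p q θ p' q' b u z v a S η) :
    ∫ x in (0:ℝ)..1, θ x ^ 2 ≤ ∫ x in (0:ℝ)..(4095 / 4096), η x ^ 2 := by
  have i2 : IntervalIntegrable (fun x => θ x ^ 2) volume 0 1 := (D.hθ.cont.pow 2).intervalIntegrable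
  have h1 : ∫ x in (0:ℝ)..1, θ x ^ 2 = ∫ x in (0:ℝ)..(4095 / 4096), θ x ^ 2 :=
    int_cut i2 (fun x _ => rfl) (Eventually.of_forall fun x hx => by rw [D.bθ0 x ⟨hx.1.le, hx.2⟩]; norm_num)
  rw [h1]
  have h2 := poinc hL0 hL01 D.hθη D.hη.cont D.bθ
  have h3 : 0 ≤ ∫ x in (0:ℝ)..(4095 / 4096), η x ^ 2 := intervalIntegral.integral_nonneg hL0 fun x _ => sq_nonneg _
  linarith

end Pool.Agent.T2H75.RB
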