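import Pool.Agent.T2H75.RB.C5

set_option autoImplicit false

open MeasureTheory Set Filter intervalIntegral

namespace Pool.Agent.T2H75.RB

variable {ρ1 ρ2 : ℝ} {p q θ p' q' b u z v a S η : ℝ → ℝ}

lemma Dat.Jq (D : Dat ρ1 ρ2 p q θ p' q' b u z v a S η) {x : ℝ} (hx : x ∈ Icc (0:ℝ) 1) : J q x = v x := by
  have h := D.hv.primitive h01 hx
  rw [D.bv.1, sub_zero] at h
  exact h

lemma Dat.Jq' (D : Dat ρ1 ρ2 p q θ p' q' b u z v a S η) {x : ℝ} (hx : x ∈ Icc (0:ℝ) 1) : J q' x = a x := by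
  have h := D.ha.primitive h01 hx
  rw [D.ba.1, sub_zero] at h
  exact h

lemma Dat.Jp (D : Dat ρ1 ρ2 p q θ p' q' b u z v a S η) {x : ℝ} (hx : x ∈ Icc (0:ℝ) 1) : J p x = z x := by
  have h := D.hz.primitive h01 hx
  rw [D.bz.1, sub_zero] at h
  exact h

lemma Dat.Jp' (D : Dat ρ1 ρ2 p q θ p' q' b u z v a S η) {x : ℝ} (hx : x ∈ Icc (0:ℝ) 1) : J p' x = q x := by
  have h := D.hq.primitive h01 hx
  rw [D.bq.1, sub_zero] at h
  exact h

lemma Dat.JJp (D : Dat ρ1 ρ2 p q θ p' q' b u z v a S η) {x : ℝ} (hx : x ∈ Icc (0:ℝ) 1) : J (J p) x = u x := by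
  have h := D.hu.primitive h01 hx
  rw [D.bu.1, sub_zero] at h
  rw [← h]
  unfold J
  refine intervalIntegral.integral_congr fun s hs => ?_
  rw [uIcc_of_le hx.1] at hs
  exact D.Jp ⟨hs.1, hs.2.trans hx.2⟩

lemma Dat.JJp' (D : Dat ρ1 ρ2 p q θ p' q' b u z v a S η) {x : ℝ} (hx : x ∈ Icc (0:ℝ) 1) : J (J p') x = v x := by
  rw [← D.Jq hx]
  unfold J
  refine intervalIntegral.integral_congr fun s hs => ?_
  rw [uIcc_of_le hx.1] at hs
  exact D.Jp' ⟨hs.1, hs.2.trans hx.2⟩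

lemma icongr {f g : ℝ → ℝ} (h : ∀ x ∈ Icc (0:ℝ) 1, f x = g x) : ∫ x in (0:ℝ)..1, f x = ∫ x in (0:ℝ)..1, g x :=
  intervalIntegral.integral_congr fun x hx => h x (by rwa [uIcc_of_le h01] at hx)

/-- the energy of the data -/
noncomputable def EF (ρ1 ρ2 : ℝ) (p q θ v : ℝ → ℝ) : ℝ :=
  (1 / 2) * ((∫ x in (0:ℝ)..1, rh ρ1 ρ2 x * v x ^ 2) + (∫ x in (0:ℝ)..1, q x ^ 2) + (∫ x in (0:ℝ)..1, p x ^ 2) +
    ∫ x in (0:ℝ)..1, θ x ^ 2)

lemma hh_bd {x : ℝ} (hx : x ∈ Icc (0:ℝ) 1) : |hh x| ≤ 1 / 2048 := by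
  unfold hh
  split_ifs with h
  · rw [abs_le]
    constructor <;> linarith [hx.1]
  · push Not at h
    rw [abs_le]
    constructor <;> linarith [hx.2]

lemma mm_bd {x : ℝ} (hx : x ∈ Icc (0:ℝ) 1) : |mm x| ≤ 1 := by
  unfold mm
  rw [abs_le]
  constructor <;> linarith [hx.1, hx.2]

lemma chi_bd' (x : ℝ) : |chi x| ≤ 1 := by
  rw [abs_of_nonneg (chi_bd x).1]; exact (chi_bd x).2

lemma chi_mble : Measurable chi := by
  unfold chi
  exact Measurable.ite measurableSet_Iic measurable_const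
    (Measurable.ite measurableSet_Iic (by fun_prop) measurable_const)

lemma chi_ii : IntervalIntegrable chi volume 0 1 := ii_of_bdd chi_mble chi_bd' 0 1

/-- the Lyapunov functional is comparable with the energy -/
lemma Lam_bd (D : Dat ρ1 ρ2 p q θ p' q' b u z v a S η) :
    |LamF ρ1 ρ2 p q θ - 32768 * EF ρ1 ρ2 p q θ v| ≤ 2 * EF ρ1 ρ2 p q θ v := by
  have iv : IntervalIntegrable (fun x => v x ^ 2) volume 0 1 := (D.hv.cont.pow 2).intervalIntegrable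
  have iu : IntervalIntegrable (fun x => u x ^ 2) volume 0 1 := (D.hu.cont.pow 2).intervalIntegrable
  have iz : IntervalIntegrable (fun x => z x ^ 2) volume 0 1 := (D.hz.cont.pow 2).intervalIntegrable
  have iq : IntervalIntegrable (fun x => q x ^ 2) volume 0 1 := (D.hq.cont.pow 2).intervalIntegrable
  have ip : IntervalIntegrable (fun x => p x ^ 2) volume 0 1 := (D.hp.cont.pow 2).intervalIntegrable
  have iθ : IntervalIntegrable (fun x => θ x ^ 2) volume 0 1 := (D.hθ.cont.pow 2).intervalIntegrable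
  have hr := fun x => rh_bd D.hρ1 D.hρ2 x
  have ra := rh_iint D.hρ1 D.hρ2 0 1
  have l1 : ∫ x in (0:ℝ)..1, rh ρ1 ρ2 x * J q x * J q x = ∫ x in (0:ℝ)..1, rh ρ1 ρ2 x * v x ^ 2 :=
    icongr fun x hx => by rw [D.Jq hx]; ring
  have l2 : ∫ x in (0:ℝ)..1, q x * q x = ∫ x in (0:ℝ)..1, q x ^ 2 := icongr fun x _ => by ring
  have l3 : ∫ x in (0:ℝ)..1, p x * p x = ∫ x in (0:ℝ)..1, p x ^ 2 := icongr fun x _ => by ring
  have l4 : ∫ x in (0:ℝ)..1, θ x * θ x = ∫ x in (0:ℝ)..1, θ x ^ 2 := icongr fun x _ => by ring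
  have l5 : ∫ x in (0:ℝ)..1, rh ρ1 ρ2 x * J q x * J (J p) x = ∫ x in (0:ℝ)..1, rh ρ1 ρ2 x * (v x * u x) :=
    icongr fun x hx => by rw [D.Jq hx, D.JJp hx]; ring
  have l6 : ∫ x in (0:ℝ)..1, q x * J p x = ∫ x in (0:ℝ)..1, q x * z x :=
    icongr fun x hx => by rw [D.Jp hx]
  have l7 : ∫ x in (0:ℝ)..1, hh x * q x * p x = ∫ x in (0:ℝ)..1, hh x * (q x * p x) := icongr fun x _ => by ring
  have l8 : ∫ x in (0:ℝ)..1, mm x * q x * p x = ∫ x in (0:ℝ)..1, mm x * (q x * p x) := icongr fun x _ => by ring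
  have l9 : ∫ x in (0:ℝ)..1, chi x * θ x * J q x = ∫ x in (0:ℝ)..1, chi x * (θ x * v x) :=
    icongr fun x hx => by rw [D.Jq hx]; ring
  have y5 := young (w := rh ρ1 ρ2) (C := 1) (ε := 1) h01 (ra.mul_continuousOn (D.hv.cont.mul D.hu.cont))
    (fun x _ => by rw [abs_of_nonneg (hr x).1]; exact (hr x).2) (by norm_num) iv iu
  have y6 := young (w := fun _ => (1:ℝ)) (C := 1) (ε := 1) h01
    ((continuousOn_const.mul (D.hq.cont.mul D.hz.cont)).intervalIntegrable) (fun x _ => by norm_num) (by norm_num) iq iz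
  have y7 := young (w := hh) (C := 1 / 2048) (ε := 1) h01
    ((hh_ac.cont.mul (D.hq.cont.mul D.hp.cont)).intervalIntegrable) (fun x hx => hh_bd hx) (by norm_num) iq ip
  have y8 := young (w := mm) (C := 1) (ε := 1) h01
    ((mm_ac.cont.mul (D.hq.cont.mul D.hp.cont)).intervalIntegrable) (fun x hx => mm_bd hx) (by norm_num) iq ip
  have y9 := young (w := chi) (C := 1) (ε := 1) h01 (chi_ii.mul_continuousOn (D.hθ.cont.mul D.hv.cont))
    (fun x _ => chi_bd' x) (by norm_num) iθ iv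
  have pv := poinc h01 le_rfl D.hv D.hq.cont D.bv.1
  have pz := poinc h01 le_rfl D.hz D.hp.cont D.bz.1
  have pu := poinc h01 le_rfl D.hu D.hz.cont D.bu.1
  have nq : 0 ≤ ∫ x in (0:ℝ)..1, q x ^ 2 := intervalIntegral.integral_nonneg h01 fun x _ => sq_nonneg _
  have np : 0 ≤ ∫ x in (0:ℝ)..1, p x ^ 2 := intervalIntegral.integral_nonneg h01 fun x _ => sq_nonneg _
  have nθ : 0 ≤ ∫ x in (0:ℝ)..1, θ x ^ 2 := intervalIntegral.integral_nonneg h01 fun x _ => sq_nonneg _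
  have nr : 0 ≤ ∫ x in (0:ℝ)..1, rh ρ1 ρ2 x * v x ^ 2 :=
    intervalIntegral.integral_nonneg h01 fun x _ => mul_nonneg (hr x).1 (sq_nonneg _)
  unfold LamF EF
  rw [l1, l2, l3, l4, l5, l6, l7, l8, l9]
  rw [abs_le] at y5 y6 y7 y8 y9 ⊢
  norm_num at y5 y6 y7 y8 y9
  constructor <;> linarith [y5.1, y5.2, y6.1, y6.2, y7.1, y7.2, y8.1, y8.2, y9.1, y9.2]

lemma hh'_int (D : Dat ρ1 ρ2 p q θ p' q' b u z v a S η) :
    ∫ x in (0:ℝ)..1, hh' x * (q x ^ 2 + p x ^ 2) ≤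
      (1 / 2047) * ((∫ x in (0:ℝ)..(2047 / 2048), q x ^ 2) + ∫ x in (0:ℝ)..1, p x ^ 2) -
        ∫ x in (2047 / 2048 : ℝ)..1, q x ^ 2 := by
  have iw : IntervalIntegrable (fun x => hh' x * (q x ^ 2 + p x ^ 2)) volume 0 1 :=
    hh_ac.2.1.mul_continuousOn ((D.hq.cont.pow 2).add (D.hp.cont.pow 2))
  have sA : uIcc (0:ℝ) (2047 / 2048) ⊆ uIcc 0 1 := by
    rw [uIcc_of_le hL1, uIcc_of_le h01]; exact Icc_subset_Icc le_rfl (by norm_num)
  have sB : uIcc (2047 / 2048 : ℝ) 1 ⊆ uIcc 0 1 := by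
    rw [uIcc_of_le (by norm_num : (2047/2048:ℝ) ≤ 1), uIcc_of_le h01]; exact Icc_subset_Icc hL1 le_rfl
  have iq : IntervalIntegrable (fun x => q x ^ 2) volume 0 1 := (D.hq.cont.pow 2).intervalIntegrable
  have ip : IntervalIntegrable (fun x => p x ^ 2) volume 0 1 := (D.hp.cont.pow 2).intervalIntegrable
  rw [← intervalIntegral.integral_add_adjacent_intervals (iw.mono_set sA) (iw.mono_set sB)]
  have e1 : ∫ x in (0:ℝ)..(2047 / 2048), hh' x * (q x ^ 2 + p x ^ 2) =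
      (1 / 2047) * ((∫ x in (0:ℝ)..(2047 / 2048), q x ^ 2) + ∫ x in (0:ℝ)..(2047 / 2048), p x ^ 2) := by
    rw [← intervalIntegral.integral_add (iq.mono_set sA) (ip.mono_set sA), ← intervalIntegral.integral_const_mul]
    refine intervalIntegral.integral_congr_ae (Eventually.of_forall fun x hx => ?_)
    rw [uIoc_of_le hL1] at hx
    unfold hh'
    rw [if_pos hx.2]
  have e2 : ∫ x in (2047 / 2048 : ℝ)..1, hh' x * (q x ^ 2 + p x ^ 2) =
      -((∫ x in (2047 / 2048 : ℝ)..1, q x ^ 2) + ∫ x in (2047 / 2048 : ℝ)..1, p x ^ 2) := by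
    rw [← intervalIntegral.integral_add (iq.mono_set sB) (ip.mono_set sB), ← intervalIntegral.integral_neg]
    refine intervalIntegral.integral_congr_ae (Eventually.of_forall fun x hx => ?_)
    rw [uIoc_of_le (by norm_num : (2047/2048:ℝ) ≤ 1)] at hx
    unfold hh'
    rw [if_neg (not_le.2 hx.1)]
    ring
  have e3 : ∫ x in (0:ℝ)..(2047 / 2048), p x ^ 2 ≤ ∫ x in (0:ℝ)..1, p x ^ 2 :=
    int_sq_mono h01 D.hp.cont le_rfl hL1 (by norm_num)
  have e4 : 0 ≤ ∫ x in (2047 / 2048 : ℝ)..1, p x ^ 2 :=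
    intervalIntegral.integral_nonneg (by norm_num) fun x _ => sq_nonneg _
  rw [e1, e2]
  linarith

/-- the dissipation estimate -/
lemma dLam_bd (D : Dat ρ1 ρ2 p q θ p' q' b u z v a S η) :
    dLamF ρ1 ρ2 p q θ p' q' b ≤ -(1 / 24) * EF ρ1 ρ2 p q θ v := by
  have iv : IntervalIntegrable (fun x => v x ^ 2) volume 0 1 := (D.hv.cont.pow 2).intervalIntegrable
  have iq : IntervalIntegrable (fun x => q x ^ 2) volume 0 1 := (D.hq.cont.pow 2).intervalIntegrable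
  have ip : IntervalIntegrable (fun x => p x ^ 2) volume 0 1 := (D.hp.cont.pow 2).intervalIntegrable
  have iθ : IntervalIntegrable (fun x => θ x ^ 2) volume 0 1 := (D.hθ.cont.pow 2).intervalIntegrable
  have iS : IntervalIntegrable (fun x => S x ^ 2) volume 0 1 := (D.hS.cont.pow 2).intervalIntegrable
  have ia : IntervalIntegrable (fun x => a x ^ 2) volume 0 1 := (D.ha.cont.pow 2).intervalIntegrable
  have hr := fun x => rh_bd D.hρ1 D.hρ2 x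
  have ra := rh_iint D.hρ1 D.hρ2 0 1
  have s0 : uIcc (0:ℝ) (4095 / 4096) ⊆ uIcc 0 1 := by
    rw [uIcc_of_le hL0, uIcc_of_le h01]; exact Icc_subset_Icc le_rfl hL01
  -- translate
  have l1 : ∫ x in (0:ℝ)..1, rh ρ1 ρ2 x * J q x * J q' x = ∫ x in (0:ℝ)..1, rh ρ1 ρ2 x * v x * a x :=
    icongr fun x hx => by rw [D.Jq hx, D.Jq' hx]
  have l2 : ∫ x in (0:ℝ)..1, rh ρ1 ρ2 x * J q' x * J (J p) x = ∫ x in (0:ℝ)..1, rh ρ1 ρ2 x * a x * u x :=
    icongr fun x hx => by rw [D.JJp hx, D.Jq' hx]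
  have l3 : ∫ x in (0:ℝ)..1, rh ρ1 ρ2 x * J q x * J (J p') x = ∫ x in (0:ℝ)..1, rh ρ1 ρ2 x * v x ^ 2 :=
    icongr fun x hx => by rw [D.Jq hx, D.JJp' hx]; ring
  have l4 : ∫ x in (0:ℝ)..1, q' x * J p x = ∫ x in (0:ℝ)..1, q' x * z x := icongr fun x hx => by rw [D.Jp hx]
  have l5 : ∫ x in (0:ℝ)..1, q x * J p' x = ∫ x in (0:ℝ)..1, q x ^ 2 := icongr fun x hx => by rw [D.Jp' hx]; ring
  have l6 : ∫ x in (0:ℝ)..1, chi x * b x * J q x = ∫ x in (0:ℝ)..1, chi x * b x * v x :=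
    icongr fun x hx => by rw [D.Jq hx]
  have l7 : ∫ x in (0:ℝ)..1, chi x * θ x * J q' x = ∫ x in (0:ℝ)..1, chi x * (θ x * a x) :=
    icongr fun x hx => by rw [D.Jq' hx]; ring
  have k0 := id0 D
  have k1 := id1 D
  have k2 := idm D hh_ac
  have k3 := idm D mm_ac
  have k4 := T4 D
  have k5 := hh'_int D
  have k6 : ∫ x in (0:ℝ)..1, (-2:ℝ) * (q x ^ 2 + p x ^ 2) =
      -2 * ((∫ x in (0:ℝ)..1, q x ^ 2) + ∫ x in (0:ℝ)..1, p x ^ 2) := by
    rw [intervalIntegral.integral_const_mul, intervalIntegral.integral_add iq ip]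
  have hh0 : hh 0 = 0 := by unfold hh; norm_num
  have hh1 : hh 1 = 0 := by unfold hh; norm_num
  have mm0 : mm 0 = 1 := by unfold mm; norm_num
  have mm1 : mm 1 = -1 := by unfold mm; norm_num
  rw [hh0, hh1] at k2
  rw [mm0, mm1, k6] at k3
  -- Young
  have y1 := young (w := fun _ => (1:ℝ)) (C := 1) (ε := 8) h01
    ((continuousOn_const.mul (D.hθ.cont.mul D.hp.cont)).intervalIntegrable) (fun x _ => by norm_num) (by norm_num) iθ ip
  have y1' : ∫ x in (0:ℝ)..1, (1:ℝ) * (θ x * p x) = ∫ x in (0:ℝ)..1, θ x * p x := icongr fun x _ => by ring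
  have hη0 : ContinuousOn η (uIcc 0 (4095 / 4096)) := D.hη.cont
  have hp0 : ContinuousOn p (uIcc 0 (4095 / 4096)) := D.hp.cont.mono s0
  have sub1 : ∀ x ∈ Icc (0:ℝ) (4095 / 4096), x ∈ Icc (0:ℝ) 1 := fun x hx => ⟨hx.1, hx.2.trans hL01⟩
  have y2 := young (w := hh) (C := 1 / 2048) (ε := 1) hL0
    (((hh_ac.cont.mono s0).mul (hη0.mul hp0)).intervalIntegrable) (fun x hx => hh_bd (sub1 x hx)) (by norm_num)
    (hη0.pow 2).intervalIntegrable (hp0.pow 2).intervalIntegrable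
  have y3 := young (w := mm) (C := 1) (ε := 1) hL0
    (((mm_ac.cont.mono s0).mul (hη0.mul hp0)).intervalIntegrable) (fun x hx => mm_bd (sub1 x hx)) (by norm_num)
    (hη0.pow 2).intervalIntegrable (hp0.pow 2).intervalIntegrable
  have y4 := young (w := hh) (C := 1 / 2048) (ε := 1 / 16) h01
    ((hh_ac.cont.mul (D.hS.cont.mul D.hp.cont)).intervalIntegrable) (fun x hx => hh_bd hx) (by norm_num) iS ip
  have y5 := young (w := mm) (C := 1) (ε := 1 / 16) h01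
    ((mm_ac.cont.mul (D.hS.cont.mul D.hp.cont)).intervalIntegrable) (fun x hx => mm_bd hx) (by norm_num) iS ip
  have y6 := young (w := chi) (C := 1) (ε := 51200) h01 (chi_ii.mul_continuousOn (D.hθ.cont.mul D.ha.cont))
    (fun x _ => chi_bd' x) (by norm_num) iθ ia
  have pp0 : ∫ x in (0:ℝ)..(4095 / 4096), p x ^ 2 ≤ ∫ x in (0:ℝ)..1, p x ^ 2 :=
    int_sq_mono h01 D.hp.cont le_rfl hL0 hL01
  -- estimates
  have E1 := S_est D
  have E2 := a_est D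
  have E3 := G_est D
  have E4 := θ_est D
  have E5 := split_q D
  have pv := poinc h01 le_rfl D.hv D.hq.cont D.bv.1
  have prv : ∫ x in (0:ℝ)..1, rh ρ1 ρ2 x * v x ^ 2 ≤ ∫ x in (0:ℝ)..1, v x ^ 2 := by
    refine intervalIntegral.integral_mono_on h01 (ra.mul_continuousOn (D.hv.cont.pow 2)) iv fun x _ => ?_
    nlinarith [(hr x).2, sq_nonneg (v x)]
  have n1 : 0 ≤ ∫ x in (0:ℝ)..(2047 / 2048), q x ^ 2 := intervalIntegral.integral_nonneg hL1 fun x _ => sq_nonneg _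
  have n2 : 0 ≤ ∫ x in (2047 / 2048 : ℝ)..1, q x ^ 2 :=
    intervalIntegral.integral_nonneg (by norm_num) fun x _ => sq_nonneg _
  have n3 : 0 ≤ ∫ x in (0:ℝ)..1, p x ^ 2 := intervalIntegral.integral_nonneg h01 fun x _ => sq_nonneg _
  have n4 : 0 ≤ ∫ x in (0:ℝ)..1, θ x ^ 2 := intervalIntegral.integral_nonneg h01 fun x _ => sq_nonneg _
  have n5 : 0 ≤ ∫ x in (0:ℝ)..(4095 / 4096), η x ^ 2 := intervalIntegral.integral_nonneg hL0 fun x _ => sq_nonneg _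
  have n6 : 0 ≤ p 0 ^ 2 := sq_nonneg _
  have n7 : 0 ≤ p 1 ^ 2 := sq_nonneg _
  unfold dLamF EF
  rw [l1, l2, l3, l4, l5, l6, l7, k0, k2, k3]
  rw [y1'] at y1
  rw [abs_le] at y1 y2 y3 y4 y5 y6
  norm_num at y1 y2 y3 y4 y5 y6
  set Q := ∫ x in (0:ℝ)..1, q x ^ 2
  set Q1 := ∫ x in (0:ℝ)..(2047 / 2048), q x ^ 2
  set Q2 := ∫ x in (2047 / 2048 : ℝ)..1, q x ^ 2
  set P := ∫ x in (0:ℝ)..1, p x ^ 2
  set P0 := ∫ x in (0:ℝ)..(4095 / 4096), p x ^ 2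
  set T := ∫ x in (0:ℝ)..1, θ x ^ 2
  set Y := ∫ x in (0:ℝ)..(4095 / 4096), η x ^ 2
  set sS := ∫ x in (0:ℝ)..1, S x ^ 2
  set sA := ∫ x in (0:ℝ)..1, a x ^ 2
  set G := ∫ x in (0:ℝ)..1, (p x + θ x) ^ 2
  set RV := ∫ x in (0:ℝ)..1, rh ρ1 ρ2 x * v x ^ 2
  set V := ∫ x in (0:ℝ)..1, v x ^ 2
  linarith [y1.1, y1.2, y2.1, y2.2, y3.1, y3.2, y4.1, y4.2, y5.1, y5.2, y6.1, y6.2]

end Pool.Agent.T2H75.RB
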