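import Pool.Agent.T2H75.RB.A
import Pool.Agent.T2H75.RB.B
import Pool.Agent.T2H75.RB.C6

set_option autoImplicit false

open MeasureTheory Set Filter intervalIntegral

namespace Pool.Agent.T2H75.RB

variable {ρ1 ρ2 : ℝ}

lemma J_cong {f g : ℝ → ℝ} (h : ∀ᵐ x, x ∈ Ioc (0:ℝ) 1 → f x = g x) {x : ℝ} (hx : x ∈ Icc (0:ℝ) 1) :
    J f x = J g x := by
  unfold J
  refine intervalIntegral.integral_congr_ae ?_
  filter_upwards [h] with s hs h2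
  rw [uIoc_of_le hx.1] at h2
  exact hs ⟨h2.1, h2.2.trans hx.2⟩

lemma JJ_congr {f g : ℝ → ℝ} (h : ∀ᵐ x, x ∈ Ioc (0:ℝ) 1 → f x = g x) {x : ℝ} (hx : x ∈ Icc (0:ℝ) 1) :
    J (J f) x = J (J g) x :=
  J_cong (Eventually.of_forall fun s hs => J_cong h ⟨hs.1.le, hs.2⟩) hx

lemma iae {f g : ℝ → ℝ} (h : ∀ᵐ x, x ∈ Ioc (0:ℝ) 1 → f x = g x) : ∫ x in (0:ℝ)..1, f x = ∫ x in (0:ℝ)..1, g x := by
  refine intervalIntegral.integral_congr_ae ?_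
  filter_upwards [h] with x hx h2
  rw [uIoc_of_le h01] at h2
  exact hx h2

lemma LamF_congr {P Q T p q θ : ℝ → ℝ} (hp : ∀ᵐ x, x ∈ Ioc (0:ℝ) 1 → P x = p x)
    (hq : ∀ᵐ x, x ∈ Ioc (0:ℝ) 1 → Q x = q x) (hθ : ∀ᵐ x, x ∈ Ioc (0:ℝ) 1 → T x = θ x) :
    LamF ρ1 ρ2 P Q T = LamF ρ1 ρ2 p q θ := by
  unfold LamF
  congr 1
  · congr 1
    · congr 1
      · congr 1
        · congr 1
          congr 1
          · congr 1
            · congr 1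
              · apply iae
                filter_upwards with x hx
                rw [J_cong hq ⟨hx.1.le, hx.2⟩]
              · apply iae
                filter_upwards [hq] with x h1 hx
                rw [h1 hx]
            · apply iae
              filter_upwards [hp] with x h1 hx
              rw [h1 hx]
          · apply iae
            filter_upwards [hθ] with x h1 hx
            rw [h1 hx]
        · congr 1
          congr 1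
          · apply iae
            filter_upwards with x hx
            rw [J_cong hq ⟨hx.1.le, hx.2⟩, JJ_congr hp ⟨hx.1.le, hx.2⟩]
          · apply iae
            filter_upwards [hq] with x h1 hx
            rw [J_cong hp ⟨hx.1.le, hx.2⟩, h1 hx]
      · congr 1
        apply iae
        filter_upwards [hp, hq] with x h1 h2 hx
        rw [h1 hx, h2 hx]
    · congr 1
      apply iae
      filter_upwards [hp, hq] with x h1 h2 hx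
      rw [h1 hx, h2 hx]
  · apply iae
    filter_upwards [hθ] with x h1 hx
    rw [h1 hx, J_cong hq ⟨hx.1.le, hx.2⟩]

lemma dLamF_congr {P Q T p q θ p' q' θ' : ℝ → ℝ} (hp : ∀ᵐ x, x ∈ Ioc (0:ℝ) 1 → P x = p x)
    (hq : ∀ᵐ x, x ∈ Ioc (0:ℝ) 1 → Q x = q x) (hθ : ∀ᵐ x, x ∈ Ioc (0:ℝ) 1 → T x = θ x) :
    dLamF ρ1 ρ2 P Q T p' q' θ' = dLamF ρ1 ρ2 p q θ p' q' θ' := by
  have e1 : ∫ x in (0:ℝ)..1, rh ρ1 ρ2 x * J Q x * J q' x = ∫ x in (0:ℝ)..1, rh ρ1 ρ2 x * J q x * J q' x := by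
    apply iae; filter_upwards with x hx; rw [J_cong hq ⟨hx.1.le, hx.2⟩]
  have e2 : ∫ x in (0:ℝ)..1, Q x * q' x = ∫ x in (0:ℝ)..1, q x * q' x := by
    apply iae; filter_upwards [hq] with x h1 hx; rw [h1 hx]
  have e3 : ∫ x in (0:ℝ)..1, P x * p' x = ∫ x in (0:ℝ)..1, p x * p' x := by
    apply iae; filter_upwards [hp] with x h1 hx; rw [h1 hx]
  have e4 : ∫ x in (0:ℝ)..1, T x * θ' x = ∫ x in (0:ℝ)..1, θ x * θ' x := by
    apply iae; filter_upwards [hθ] with x h1 hx; rw [h1 hx]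
  have e5 : ∫ x in (0:ℝ)..1, rh ρ1 ρ2 x * J q' x * J (J P) x = ∫ x in (0:ℝ)..1, rh ρ1 ρ2 x * J q' x * J (J p) x := by
    apply iae; filter_upwards with x hx; rw [JJ_congr hp ⟨hx.1.le, hx.2⟩]
  have e6 : ∫ x in (0:ℝ)..1, rh ρ1 ρ2 x * J Q x * J (J p') x = ∫ x in (0:ℝ)..1, rh ρ1 ρ2 x * J q x * J (J p') x := by
    apply iae; filter_upwards with x hx; rw [J_cong hq ⟨hx.1.le, hx.2⟩]
  have e7 : ∫ x in (0:ℝ)..1, q' x * J P x = ∫ x in (0:ℝ)..1, q' x * J p x := by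
    apply iae; filter_upwards with x hx; rw [J_cong hp ⟨hx.1.le, hx.2⟩]
  have e8 : ∫ x in (0:ℝ)..1, Q x * J p' x = ∫ x in (0:ℝ)..1, q x * J p' x := by
    apply iae; filter_upwards [hq] with x h1 hx; rw [h1 hx]
  have e9 : ∫ x in (0:ℝ)..1, hh x * q' x * P x = ∫ x in (0:ℝ)..1, hh x * q' x * p x := by
    apply iae; filter_upwards [hp] with x h1 hx; rw [h1 hx]
  have e10 : ∫ x in (0:ℝ)..1, hh x * Q x * p' x = ∫ x in (0:ℝ)..1, hh x * q x * p' x := by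
    apply iae; filter_upwards [hq] with x h1 hx; rw [h1 hx]
  have e11 : ∫ x in (0:ℝ)..1, mm x * q' x * P x = ∫ x in (0:ℝ)..1, mm x * q' x * p x := by
    apply iae; filter_upwards [hp] with x h1 hx; rw [h1 hx]
  have e12 : ∫ x in (0:ℝ)..1, mm x * Q x * p' x = ∫ x in (0:ℝ)..1, mm x * q x * p' x := by
    apply iae; filter_upwards [hq] with x h1 hx; rw [h1 hx]
  have e13 : ∫ x in (0:ℝ)..1, chi x * θ' x * J Q x = ∫ x in (0:ℝ)..1, chi x * θ' x * J q x := by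
    apply iae; filter_upwards with x hx; rw [J_cong hq ⟨hx.1.le, hx.2⟩]
  have e14 : ∫ x in (0:ℝ)..1, chi x * T x * J q' x = ∫ x in (0:ℝ)..1, chi x * θ x * J q' x := by
    apply iae; filter_upwards [hθ] with x h1 hx; rw [h1 hx]
  unfold dLamF
  rw [e1, e2, e3, e4, e5, e6, e7, e8, e9, e10, e11, e12, e13, e14]

/-- the energy in terms of the static data -/
lemma E_eq {p q θ p' q' b u z v a S η : ℝ → ℝ} (D : Dat ρ1 ρ2 p q θ p' q' b u z v a S η)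
    (Φ : State (par ρ1 ρ2)) (hp : ∀ᵐ x, x ∈ Ioc (0:ℝ) 1 → Φ.1 x = p x)
    (hq : ∀ᵐ x, x ∈ Ioc (0:ℝ) 1 → Φ.2.1 x = q x) (hθ : ∀ᵐ x, x ∈ Ioc (0:ℝ) 1 → Φ.2.2 x = θ x) :
    E (par ρ1 ρ2) Φ = EF ρ1 ρ2 p q θ v := by
  have ra := rh_iint D.hρ1 D.hρ2 0 1
  have iv : IntervalIntegrable (fun x => rh ρ1 ρ2 x * v x ^ 2) volume 0 1 := ra.mul_continuousOn (D.hv.cont.pow 2)
  have iq : IntervalIntegrable (fun x => q x ^ 2) volume 0 1 := (D.hq.cont.pow 2).intervalIntegrable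
  have ip : IntervalIntegrable (fun x => p x ^ 2) volume 0 1 := (D.hp.cont.pow 2).intervalIntegrable
  have iθ : IntervalIntegrable (fun x => θ x ^ 2) volume 0 1 := (D.hθ.cont.pow 2).intervalIntegrable
  set F : ℝ → ℝ := fun x => rh ρ1 ρ2 x * v x ^ 2 + q x ^ 2 + p x ^ 2 + θ x ^ 2 with hF
  have iF : IntervalIntegrable F volume 0 1 := ((iv.add iq).add ip).add iθ
  have sA : uIcc (0:ℝ) (4095 / 4096) ⊆ uIcc 0 1 := by
    rw [uIcc_of_le hL0, uIcc_of_le h01]; exact Icc_subset_Icc le_rfl hL01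
  have sB : uIcc (4095 / 4096 : ℝ) 1 ⊆ uIcc 0 1 := by
    rw [uIcc_of_le hL01, uIcc_of_le h01]; exact Icc_subset_Icc hL0 le_rfl
  have h1 : EF ρ1 ρ2 p q θ v = (1 / 2) * ∫ x in (0:ℝ)..1, F x := by
    unfold EF
    rw [hF, intervalIntegral.integral_add ((iv.add iq).add ip) iθ, intervalIntegral.integral_add (iv.add iq) ip,
      intervalIntegral.integral_add iv iq]
  have h2 := intervalIntegral.integral_add_adjacent_intervals (iF.mono_set sA) (iF.mono_set sB)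
  rw [h1, ← h2, mul_add]
  unfold E
  congr 1
  · congr 1
    show ∫ x in (0:ℝ)..(4095 / 4096), (ρ1 * (J Φ.2.1 x) ^ 2 + 1 * (Φ.2.1 x) ^ 2 + 1 * (Φ.1 x) ^ 2
      + 1 * (Φ.2.2 x) ^ 2) = _
    refine intervalIntegral.integral_congr_ae ?_
    filter_upwards [hp, hq, hθ] with x a1 a2 a3 hx
    rw [uIoc_of_le hL0] at hx
    have hx1 : x ∈ Ioc (0:ℝ) 1 := ⟨hx.1, hx.2.trans hL01⟩
    rw [a1 hx1, a2 hx1, a3 hx1, J_cong hq ⟨hx1.1.le, hx1.2⟩, D.Jq ⟨hx1.1.le, hx1.2⟩, hF]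
    simp only [rh, pw, if_pos hx.2]
    ring
  · congr 1
    show ∫ x in (4095 / 4096 : ℝ)..1, (ρ2 * (J Φ.2.1 x) ^ 2 + 1 * (Φ.2.1 x) ^ 2 + 1 * (Φ.1 x) ^ 2) = _
    refine intervalIntegral.integral_congr_ae ?_
    filter_upwards [hp, hq] with x a1 a2 hx
    rw [uIoc_of_le hL01] at hx
    have hx1 : x ∈ Ioc (0:ℝ) 1 := ⟨lt_of_le_of_lt hL0 hx.1, hx.2⟩
    rw [a1 hx1, a2 hx1, J_cong hq ⟨hx1.1.le, hx1.2⟩, D.Jq ⟨hx1.1.le, hx1.2⟩, hF]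
    simp only [rh, pw, if_neg (not_le.2 hx.1), D.bθ0 x ⟨hx.1.le, hx.2⟩]
    ring

/-- what we need for an element of the domain -/
lemma gen_main (h1 : 0 < ρ1) (h1' : ρ1 ≤ 1) (h2 : 0 < ρ2) (h2' : ρ2 ≤ 1) (Φ Ψ : State (par ρ1 ρ2))
    (hG : Gen (par ρ1 ρ2) Φ Ψ) :
    |LamF ρ1 ρ2 Φ.1 Φ.2.1 Φ.2.2 - 32768 * E (par ρ1 ρ2) Φ| ≤ 2 * E (par ρ1 ρ2) Φ ∧
    dLamF ρ1 ρ2 Φ.1 Φ.2.1 Φ.2.2 Ψ.1 Ψ.2.1 Ψ.2.2 ≤ -(1 / 24) * E (par ρ1 ρ2) Φ := by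
  obtain ⟨p, q, θ, S, η, hp, hq, hθ, D⟩ := b_stmt ρ1 ρ2 h1 h1' h2 h2' Φ Ψ hG
  rw [E_eq D Φ hp hq hθ, LamF_congr hp hq hθ, dLamF_congr hp hq hθ]
  exact ⟨Lam_bd D, dLam_bd D⟩

/-- exponential decay -/
theorem decay (h1 : 0 < ρ1) (h1' : ρ1 ≤ 1) (h2 : 0 < ρ2) (h2' : ρ2 ≤ 1) (Φ Ψ : ℝ → State (par ρ1 ρ2))
    (hs : IsSol (par ρ1 ρ2) Φ Ψ) (t : ℝ) (ht : 0 ≤ t) :
    E (par ρ1 ρ2) (Φ t) ≤ 2 * Real.exp (-(1 / 786480) * t) * E (par ρ1 ρ2) (Φ 0) := by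
  obtain ⟨hc, hd⟩ := hs
  obtain ⟨a1, a2⟩ := a_stmt ρ1 ρ2 Φ Ψ hc (fun t ht => (hd t ht).2)
  set f : ℝ → ℝ := fun t => LamF ρ1 ρ2 (Φ t).1 (Φ t).2.1 (Φ t).2.2 with hf
  have hb : ∀ s, 0 ≤ s → |f s - 32768 * E (par ρ1 ρ2) (Φ s)| ≤ 2 * E (par ρ1 ρ2) (Φ s) ∧
      dLamF ρ1 ρ2 (Φ s).1 (Φ s).2.1 (Φ s).2.2 (Ψ s).1 (Ψ s).2.1 (Ψ s).2.2 ≤ -(1 / 24) * E (par ρ1 ρ2) (Φ s) :=
    fun s hs => gen_main h1 h1' h2 h2' _ _ (hd s hs).1
  have g := le_gronwallBound_of_liminf_deriv_right_le (f := f)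
    (f' := fun s => dLamF ρ1 ρ2 (Φ s).1 (Φ s).2.1 (Φ s).2.2 (Ψ s).1 (Ψ s).2.1 (Ψ s).2.2)
    (δ := f 0) (K := -(1 / 786480)) (ε := 0) (a := 0) (b := t)
    (a1.mono fun x hx => hx.1)
    (fun x hx r hr => (a2 x hx.1).liminf_right_slope_le hr) le_rfl
    (fun x hx => by
      obtain ⟨b1, b2⟩ := hb x hx.1
      have b3 := (abs_le.1 b1).2
      have b4 := (abs_le.1 b1).1
      linarith)
    t ⟨ht, le_rfl⟩
  rw [gronwallBound_ε0, sub_zero] at g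
  have b0 := (hb 0 le_rfl).1
  have bt := (hb t ht).1
  have c0 := (abs_le.1 b0).2
  have ct := (abs_le.1 bt).1
  have c0' := (abs_le.1 b0).1
  have hE0 : 0 ≤ E (par ρ1 ρ2) (Φ 0) := by linarith
  have he : 0 < Real.exp (-(1 / 786480) * t) := Real.exp_pos _
  have k1 : f 0 * Real.exp (-(1 / 786480) * t) ≤ 32770 * E (par ρ1 ρ2) (Φ 0) * Real.exp (-(1 / 786480) * t) :=
    mul_le_mul_of_nonneg_right (by linarith) he.le
  have k2 : 0 ≤ E (par ρ1 ρ2) (Φ 0) * Real.exp (-(1 / 786480) * t) := by positivity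
  nlinarith

end Pool.Agent.T2H75.RB
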