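import Pool.Agent.T2H75.RB.F

/-!
# MP_542e45_an: the system for plain functions, and the reduction to `decay`
-/

set_option autoImplicit false

open MeasureTheory Set Filter
open scoped Topology

namespace Pool.Agent.T2H75.RB

/-- a state: the second derivative `p` of the displacement, the first derivative `q` of the velocity, the temperature
`θ` (extended by zero to `(L0,L)`) -/
structure St where
  p : ℝ → ℝ
  q : ℝ → ℝ
  θ : ℝ → ℝ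

/-- `f` is in `L²(0,L)` -/
def SqInt (L : ℝ) (f : ℝ → ℝ) : Prop := MemLp f 2 (volume.restrict (Ioc 0 L))

/-- The energy space: `p, q, θ` are in `L²(0,L)`, the displacement `J (J p)` is in `H²_0(0,L)`, the velocity `J q` is in
`H¹_0(0,L)`, the temperature vanishes on `(L0,L)`. -/
def InSpace (c : Par) (Φ : St) : Prop :=
  SqInt c.L Φ.p ∧ SqInt c.L Φ.q ∧ SqInt c.L Φ.θ ∧
    J Φ.p c.L = 0 ∧ J (J Φ.p) c.L = 0 ∧ J Φ.q c.L = 0 ∧ ∀ᵐ x, x ∈ Ioc c.L0 c.L → Φ.θ x = 0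

/-- the energy -/
noncomputable def energy (c : Par) (Φ : St) : ℝ :=
  (1 / 2) * (∫ x in (0:ℝ)..c.L0, (c.ρ1 * (J Φ.q x) ^ 2 + c.α1 * (Φ.q x) ^ 2 + c.β1 * (Φ.p x) ^ 2
      + c.ρ0 * (Φ.θ x) ^ 2)) +
  (1 / 2) * (∫ x in c.L0..c.L, (c.ρ2 * (J Φ.q x) ^ 2 + c.α2 * (Φ.q x) ^ 2 + c.β2 * (Φ.p x) ^ 2))

/-- The beam equations and the transmission conditions, for `Φ = (p, q, θ)` and `Ψ = (p', q', b)`, `p = u_xx`,
`q' = u_ttx` (and the same with `y`): `S` is the force `α u_ttx - β u_xxx - γ θ_x` (with the constants and functions of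
the two sides). It is continuous at `L0` (fourth transmission condition) and `S_x = ρ u_tt` (beam equations);
`β u_xx + γ θ` is absolutely continuous on `(0,L)` with derivative `α u_ttx - S` (it is continuous at `L0`: third
transmission condition, `θ(L0) = 0`). -/
def BeamEq (c : Par) (Φ Ψ : St) : Prop :=
  ∃ S : ℝ → ℝ, (∃ s0 : ℝ, ∀ x ∈ Icc 0 c.L, S x = s0 + ∫ s in (0:ℝ)..x, pw c.L0 c.ρ1 c.ρ2 s * J Ψ.q s) ∧
    ∃ g0 : ℝ, ∀ᵐ x, x ∈ Ioc 0 c.L → pw c.L0 c.β1 c.β2 x * Φ.p x + c.γ * Φ.θ x =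
      g0 + ∫ s in (0:ℝ)..x, (pw c.L0 c.α1 c.α2 s * Ψ.q s - S s)

/-- The heat equation for `Φ = (p, q, θ)` and `Ψ = (p', q', b)`, `p' = u_txx`, `b = θ_t`: `θ` is in
`H²(0,L0) ∩ H¹_0(0,L0)`, and `η = θ_x` satisfies `κ η_x = ρ0 θ_t - γ u_txx`. -/
def HeatEq (c : Par) (Φ Ψ : St) : Prop :=
  ∃ η : ℝ → ℝ, (∃ e0 : ℝ, ∀ x ∈ Icc 0 c.L0, η x = e0 + ∫ s in (0:ℝ)..x, (c.ρ0 * Ψ.θ s - c.γ * Ψ.p s) / c.κ) ∧
    (∫ s in (0:ℝ)..c.L0, η s = 0) ∧ ∀ᵐ x, x ∈ Ioc 0 c.L0 → Φ.θ x = ∫ s in (0:ℝ)..x, η s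

/-- `Generates c Φ Ψ`: the state `Φ = (p, q, θ)` is in the domain of the generator and is mapped to
`Ψ = (p', q', b)`. Both are in the energy space, the velocity is in `H²_0(0,L)` with second derivative `p'` (that is
`q = u_tx` is the primitive of `p' = u_txx`; the condition `u_tx(L) = 0` is part of `InSpace c Ψ`), and the beam
equations, the transmission conditions and the heat equation hold. -/
def Generates (c : Par) (Φ Ψ : St) : Prop :=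
  InSpace c Φ ∧ InSpace c Ψ ∧ (∀ᵐ x, x ∈ Ioc 0 c.L → Φ.q x = J Ψ.p x) ∧ BeamEq c Φ Ψ ∧ HeatEq c Φ Ψ

/-- the square of the distance of two states (the norm of `L²(0,L)³`, which is equivalent to the norm of the energy
space) -/
noncomputable def distSq (c : Par) (Φ Ψ : St) : ℝ :=
  ∫ x in (0:ℝ)..c.L, ((Φ.p x - Ψ.p x) ^ 2 + (Φ.q x - Ψ.q x) ^ 2 + (Φ.θ x - Ψ.θ x) ^ 2)

/-- `Φ + h Ψ` -/
def St.move (Φ : St) (h : ℝ) (Ψ : St) : St :=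
  ⟨fun x => Φ.p x + h * Ψ.p x, fun x => Φ.q x + h * Ψ.q x, fun x => Φ.θ x + h * Ψ.θ x⟩

/-- A classical solution `t ↦ Φ t` for `t ≥ 0`, with time derivative `Ψ t` in the energy space: a continuous curve in the
domain of the generator, differentiable from the right with derivative `Ψ t = A Φ t` (for `Φ 0` in the domain
of the generator the orbits of the semigroup are such curves). -/
def IsSolution (c : Par) (Φ Ψ : ℝ → St) : Prop :=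
  ∀ t : ℝ, 0 ≤ t → Generates c (Φ t) (Ψ t) ∧
    Tendsto (fun s => distSq c (Φ s) (Φ t)) (𝓝[Ici 0] t) (𝓝 0) ∧
    Tendsto (fun s => distSq c (Φ s) ((Φ t).move (s - t) (Ψ t)) / (s - t) ^ 2) (𝓝[>] t) (𝓝 0)

/-! ### From functions to `L²` -/

noncomputable def lft (L : ℝ) (f : ℝ → ℝ) : L2 L := by
  classical
  exact if h : SqInt L f then MemLp.toLp f h else 0

lemma lft_ae {L : ℝ} {f : ℝ → ℝ} (h : SqInt L f) : ∀ᵐ x, x ∈ Ioc 0 L → lft L f x = f x := by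
  have h1 : lft L f = MemLp.toLp f h := by
    unfold lft
    rw [dif_pos h]
  rw [h1, ← ae_restrict_iff' measurableSet_Ioc]
  exact MemLp.coeFn_toLp h

lemma normSq_L2 {L : ℝ} (hL : 0 ≤ L) (f : L2 L) : ‖f‖ ^ 2 = ∫ x in (0:ℝ)..L, (f x) ^ 2 := by
  have h1 : ‖f‖ ^ 2 = inner ℝ f f := (real_inner_self_eq_norm_sq f).symm
  rw [h1, L2.inner_def, intervalIntegral.integral_of_le hL]
  refine integral_congr_ae (Eventually.of_forall fun x => ?_)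
  simp [pow_two]

lemma norm_le_dist {L : ℝ} (hL : 0 ≤ L) (f g : ℝ → ℝ) (hf : SqInt L f) (hg : SqInt L g) :
    ‖lft L f - lft L g‖ ^ 2 = ∫ x in (0:ℝ)..L, (f x - g x) ^ 2 := by
  rw [normSq_L2 hL]
  refine intervalIntegral.integral_congr_ae ?_
  rw [uIoc_of_le hL]
  have h1 := Lp.coeFn_sub (lft L f) (lft L g)
  rw [Filter.EventuallyEq, ae_restrict_iff' measurableSet_Ioc] at h1
  filter_upwards [lft_ae hf, lft_ae hg, h1] with x h2 h3 h4 hx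
  rw [h4 hx, Pi.sub_apply, h2 hx, h3 hx]

lemma norm_move {L : ℝ} (hL : 0 ≤ L) (f g k : ℝ → ℝ) (h : ℝ) (hf : SqInt L f) (hg : SqInt L g) (hk : SqInt L k) :
    ‖lft L f - lft L g - h • lft L k‖ ^ 2 = ∫ x in (0:ℝ)..L, (f x - (g x + h * k x)) ^ 2 := by
  rw [normSq_L2 hL]
  refine intervalIntegral.integral_congr_ae ?_
  rw [uIoc_of_le hL]
  have h1 := Lp.coeFn_sub (lft L f - lft L g) (h • lft L k)
  have h1' := Lp.coeFn_sub (lft L f) (lft L g)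
  have h1'' := Lp.coeFn_smul h (lft L k)
  rw [Filter.EventuallyEq, ae_restrict_iff' measurableSet_Ioc] at h1 h1' h1''
  filter_upwards [lft_ae hf, lft_ae hg, lft_ae hk, h1, h1', h1''] with x h2 h3 h3' h4 h5 h6 hx
  rw [h4 hx, Pi.sub_apply, h5 hx, h6 hx, Pi.sub_apply, Pi.smul_apply, h2 hx, h3 hx, h3' hx, smul_eq_mul]
  ring

lemma sq_ii {L : ℝ} (hL : 0 ≤ L) {f : ℝ → ℝ} (hf : SqInt L f) :
    IntervalIntegrable (fun x => (f x) ^ 2) volume 0 L := by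
  rw [intervalIntegrable_iff_integrableOn_Ioc_of_le hL]
  exact MemLp.integrable_sq hf

lemma three {L : ℝ} (hL : 0 ≤ L) {f g k : ℝ → ℝ} (hf : SqInt L f) (hg : SqInt L g) (hk : SqInt L k) :
    (∫ x in (0:ℝ)..L, (f x) ^ 2) ≤ (∫ x in (0:ℝ)..L, ((f x) ^ 2 + (g x) ^ 2 + (k x) ^ 2)) ∧
    (∫ x in (0:ℝ)..L, (g x) ^ 2) ≤ (∫ x in (0:ℝ)..L, ((f x) ^ 2 + (g x) ^ 2 + (k x) ^ 2)) ∧
    (∫ x in (0:ℝ)..L, (k x) ^ 2) ≤ (∫ x in (0:ℝ)..L, ((f x) ^ 2 + (g x) ^ 2 + (k x) ^ 2)) := by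
  have h := ((sq_ii hL hf).add (sq_ii hL hg)).add (sq_ii hL hk)
  refine ⟨intervalIntegral.integral_mono_on hL (sq_ii hL hf) h fun x _ => ?_,
    intervalIntegral.integral_mono_on hL (sq_ii hL hg) h fun x _ => ?_,
    intervalIntegral.integral_mono_on hL (sq_ii hL hk) h fun x _ => ?_⟩ <;>
  nlinarith [sq_nonneg (f x), sq_nonneg (g x), sq_nonneg (k x)]

lemma sq_sub {L : ℝ} {f g : ℝ → ℝ} (hf : SqInt L f) (hg : SqInt L g) : SqInt L (fun x => f x - g x) :=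
  MemLp.sub hf hg

lemma sq_add {L : ℝ} {f g : ℝ → ℝ} (h : ℝ) (hf : SqInt L f) (hg : SqInt L g) : SqInt L (fun x => f x + h * g x) :=
  MemLp.add hf (MemLp.const_mul hg h)

lemma tend_norm {V : Type*} [NormedAddCommGroup V] {l : Filter ℝ} {F : ℝ → V} {d : ℝ → ℝ}
    (h : ∀ᶠ s in l, ‖F s‖ ^ 2 ≤ d s) (hd : Tendsto d l (𝓝 0)) : Tendsto (fun s => ‖F s‖) l (𝓝 0) := by
  have h1 : Tendsto (fun s => Real.sqrt (d s)) l (𝓝 0) := by
    have := (Real.continuous_sqrt.tendsto 0).comp hd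
    rwa [Real.sqrt_zero] at this
  refine tendsto_of_tendsto_of_tendsto_of_le_of_le' tendsto_const_nhds h1
    (Eventually.of_forall fun s => norm_nonneg _) ?_
  filter_upwards [h] with s hs
  exact Real.le_sqrt_of_sq_le hs

/-- the state in `L²` of a state of functions -/
noncomputable def lf (c : Par) (Φ : St) : State c := (lft c.L Φ.p, lft c.L Φ.q, lft c.L Φ.θ)

lemma J_ae {L : ℝ} {f g : ℝ → ℝ} (h : ∀ᵐ x, x ∈ Ioc (0:ℝ) L → f x = g x) {x : ℝ} (hx : x ∈ Icc (0:ℝ) L) :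
    J f x = J g x := by
  unfold J
  refine intervalIntegral.integral_congr_ae ?_
  filter_upwards [h] with s hs h2
  rw [uIoc_of_le hx.1] at h2
  exact hs ⟨h2.1, h2.2.trans hx.2⟩

lemma inH_lf {c : Par} (h0 : 0 < c.L0) (h1 : c.L0 < c.L) {Φ : St} (h : InSpace c Φ) : InH c (lf c Φ) := by
  obtain ⟨hp, hq, hθ, b1, b2, b3, b4⟩ := h
  have hL : 0 ≤ c.L := by linarith
  refine ⟨?_, ?_, ?_, ?_⟩
  · exact (J_ae (lft_ae hp) ⟨hL, le_rfl⟩).trans b1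
  · exact (J_ae (Eventually.of_forall fun s hs => J_ae (lft_ae hp) ⟨hs.1.le, hs.2⟩) ⟨hL, le_rfl⟩).trans b2
  · exact (J_ae (lft_ae hq) ⟨hL, le_rfl⟩).trans b3
  · filter_upwards [b4, lft_ae hθ] with x h2 h3 hx
    exact (h3 ⟨h0.trans hx.1, hx.2⟩).trans (h2 hx)

lemma gen_lf {c : Par} (h0 : 0 < c.L0) (h1 : c.L0 < c.L) {Φ Ψ : St} (h : Generates c Φ Ψ) :
    Gen c (lf c Φ) (lf c Ψ) := by
  obtain ⟨hΦ, hΨ, h2, ⟨S, ⟨s0, hS⟩, g0, hg⟩, ⟨η, ⟨e0, hη⟩, hη0, hθ⟩⟩ := h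
  have hL : 0 ≤ c.L := by linarith
  have ep := lft_ae hΦ.1
  have eq := lft_ae hΦ.2.1
  have eθ := lft_ae hΦ.2.2.1
  have ep' := lft_ae hΨ.1
  have eq' := lft_ae hΨ.2.1
  have eθ' := lft_ae hΨ.2.2.1
  refine ⟨inH_lf h0 h1 hΦ, inH_lf h0 h1 hΨ, ?_, ⟨S, ⟨s0, fun x hx => ?_⟩, g0, ?_⟩, ⟨η, ⟨e0, fun x hx => ?_⟩, hη0, ?_⟩⟩
  · filter_upwards [h2, eq] with x h3 h4 hx
    exact ((h4 hx).trans (h3 hx)).trans (J_ae ep' ⟨hx.1.le, hx.2⟩).symm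
  · rw [hS x hx]
    congr 1
    refine intervalIntegral.integral_congr_ae (Eventually.of_forall fun s hs => ?_)
    rw [uIoc_of_le hx.1] at hs
    show pw c.L0 c.ρ1 c.ρ2 s * J Ψ.q s = pw c.L0 c.ρ1 c.ρ2 s * J (lft c.L Ψ.q) s
    rw [J_ae eq' ⟨hs.1.le, hs.2.trans hx.2⟩]
  · filter_upwards [hg, ep, eθ] with x h3 h4 h5 hx
    show pw c.L0 c.β1 c.β2 x * lft c.L Φ.p x + c.γ * lft c.L Φ.θ x = _
    rw [h4 hx, h5 hx, h3 hx]
    congr 1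
    refine intervalIntegral.integral_congr_ae ?_
    filter_upwards [eq'] with s h6 hs
    rw [uIoc_of_le hx.1.le] at hs
    show _ = pw c.L0 c.α1 c.α2 s * lft c.L Ψ.q s - S s
    rw [h6 ⟨hs.1, hs.2.trans hx.2⟩]
  · rw [hη x hx]
    congr 1
    refine intervalIntegral.integral_congr_ae ?_
    filter_upwards [ep', eθ'] with s h6 h7 hs
    rw [uIoc_of_le hx.1] at hs
    show _ = (c.ρ0 * lft c.L Ψ.θ s - c.γ * lft c.L Ψ.p s) / c.κ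
    have hs2 : s ∈ Ioc 0 c.L := ⟨hs.1, (hs.2.trans hx.2).trans h1.le⟩
    rw [h6 hs2, h7 hs2]
  · filter_upwards [hθ, eθ] with x h3 h4 hx
    exact (h4 ⟨hx.1, hx.2.trans h1.le⟩).trans (h3 hx)

lemma energy_lf {c : Par} (h0 : 0 < c.L0) (h1 : c.L0 < c.L) {Φ : St} (h : InSpace c Φ) :
    E c (lf c Φ) = energy c Φ := by
  have ep := lft_ae h.1
  have eq := lft_ae h.2.1
  have eθ := lft_ae h.2.2.1
  unfold E energy
  congr 2
  · refine intervalIntegral.integral_congr_ae ?_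
    filter_upwards [ep, eq, eθ] with x h2 h3 h4 hx
    rw [uIoc_of_le h0.le] at hx
    have hx2 : x ∈ Ioc 0 c.L := ⟨hx.1, hx.2.trans h1.le⟩
    show c.ρ1 * J (lft c.L Φ.q) x ^ 2 + c.α1 * lft c.L Φ.q x ^ 2 + c.β1 * lft c.L Φ.p x ^ 2
      + c.ρ0 * lft c.L Φ.θ x ^ 2 = _
    rw [h2 hx2, h3 hx2, h4 hx2, J_ae eq ⟨hx2.1.le, hx2.2⟩]
  · refine intervalIntegral.integral_congr_ae ?_
    filter_upwards [ep, eq] with x h2 h3 hx
    rw [uIoc_of_le h1.le] at hx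
    have hx2 : x ∈ Ioc 0 c.L := ⟨h0.trans hx.1, hx.2⟩
    show c.ρ2 * J (lft c.L Φ.q) x ^ 2 + c.α2 * lft c.L Φ.q x ^ 2 + c.β2 * lft c.L Φ.p x ^ 2 = _
    rw [h2 hx2, h3 hx2, J_ae eq ⟨hx2.1.le, hx2.2⟩]

lemma dist_comp {c : Par} (hL : 0 ≤ c.L) {Φ Ψ : St} (h : InSpace c Φ) (h' : InSpace c Ψ) :
    ‖lft c.L Φ.p - lft c.L Ψ.p‖ ^ 2 ≤ distSq c Φ Ψ ∧ ‖lft c.L Φ.q - lft c.L Ψ.q‖ ^ 2 ≤ distSq c Φ Ψ ∧
      ‖lft c.L Φ.θ - lft c.L Ψ.θ‖ ^ 2 ≤ distSq c Φ Ψ := by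
  rw [norm_le_dist hL _ _ h.1 h'.1, norm_le_dist hL _ _ h.2.1 h'.2.1, norm_le_dist hL _ _ h.2.2.1 h'.2.2.1]
  exact three hL (sq_sub h.1 h'.1) (sq_sub h.2.1 h'.2.1) (sq_sub h.2.2.1 h'.2.2.1)

lemma dist_move {c : Par} (hL : 0 ≤ c.L) {Φ Φ' Ψ : St} (k : ℝ) (h : InSpace c Φ) (h' : InSpace c Φ')
    (h'' : InSpace c Ψ) :
    ‖lft c.L Φ.p - lft c.L Φ'.p - k • lft c.L Ψ.p‖ ^ 2 ≤ distSq c Φ (Φ'.move k Ψ) ∧
    ‖lft c.L Φ.q - lft c.L Φ'.q - k • lft c.L Ψ.q‖ ^ 2 ≤ distSq c Φ (Φ'.move k Ψ) ∧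
    ‖lft c.L Φ.θ - lft c.L Φ'.θ - k • lft c.L Ψ.θ‖ ^ 2 ≤ distSq c Φ (Φ'.move k Ψ) := by
  rw [norm_move hL _ _ _ k h.1 h'.1 h''.1, norm_move hL _ _ _ k h.2.1 h'.2.1 h''.2.1,
    norm_move hL _ _ _ k h.2.2.1 h'.2.2.1 h''.2.2.1]
  exact three hL (sq_sub h.1 (sq_add k h'.1 h''.1)) (sq_sub h.2.1 (sq_add k h'.2.1 h''.2.1))
    (sq_sub h.2.2.1 (sq_add k h'.2.2.1 h''.2.2.1))

lemma cont_of {V : Type*} [NormedAddCommGroup V] {F : ℝ → V} {d : ℝ → ℝ} {t : ℝ}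
    (h : ∀ s, 0 ≤ s → ‖F s - F t‖ ^ 2 ≤ d s) (hd : Tendsto d (𝓝[Ici 0] t) (𝓝 0)) :
    ContinuousWithinAt F (Ici 0) t := by
  rw [ContinuousWithinAt, tendsto_iff_norm_sub_tendsto_zero]
  exact tend_norm (eventually_of_mem self_mem_nhdsWithin fun s hs => h s hs) hd

lemma deriv_of {V : Type*} [NormedAddCommGroup V] [NormedSpace ℝ V] {F : ℝ → V} {F' : V} {d : ℝ → ℝ} {t : ℝ}
    (ht : 0 ≤ t) (h : ∀ s, 0 ≤ s → ‖F s - F t - (s - t) • F'‖ ^ 2 ≤ d s)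
    (hd : Tendsto (fun s => d s / (s - t) ^ 2) (𝓝[>] t) (𝓝 0)) : HasDerivWithinAt F F' (Ici t) t := by
  rw [← hasDerivWithinAt_Ioi_iff_Ici, hasDerivWithinAt_iff_tendsto]
  have h2 : Tendsto (fun s => ‖(s - t)⁻¹ • (F s - F t - (s - t) • F')‖) (𝓝[>] t) (𝓝 0) := by
    refine tend_norm (eventually_of_mem self_mem_nhdsWithin fun s hs => ?_) hd
    have hs' : t < s := hs
    have h3 : 0 < s - t := by linarith
    rw [norm_smul, mul_pow, norm_inv, Real.norm_eq_abs, inv_pow, sq_abs, div_eq_inv_mul]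
    exact mul_le_mul_of_nonneg_left (h s (ht.trans hs'.le)) (by positivity)
  refine h2.congr fun s => ?_
  rw [norm_smul, norm_inv]

theorem sol_lf {c : Par} (h0 : 0 < c.L0) (h1 : c.L0 < c.L) {Φ Ψ : ℝ → St} (h : IsSolution c Φ Ψ) :
    IsSol c (fun t => lf c (Φ t)) (fun t => lf c (Ψ t)) := by
  have hL : 0 ≤ c.L := by linarith
  have hG : ∀ s : ℝ, 0 ≤ s → InSpace c (Φ s) ∧ InSpace c (Ψ s) := fun s hs => ⟨(h s hs).1.1, (h s hs).1.2.1⟩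
  constructor
  · intro t ht
    have hc := (h t ht).2.1
    have c1 : ContinuousWithinAt (fun s => lft c.L (Φ s).p) (Ici 0) t :=
      cont_of (fun s hs => (dist_comp hL (hG s hs).1 (hG t ht).1).1) hc
    have c2 : ContinuousWithinAt (fun s => lft c.L (Φ s).q) (Ici 0) t :=
      cont_of (fun s hs => (dist_comp hL (hG s hs).1 (hG t ht).1).2.1) hc
    have c3 : ContinuousWithinAt (fun s => lft c.L (Φ s).θ) (Ici 0) t :=
      cont_of (fun s hs => (dist_comp hL (hG s hs).1 (hG t ht).1).2.2) hc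
    exact c1.prodMk (c2.prodMk c3)
  · intro t ht
    refine ⟨gen_lf h0 h1 (h t ht).1, ?_⟩
    have hc := (h t ht).2.2
    have d1 : HasDerivWithinAt (fun s => lft c.L (Φ s).p) (lft c.L (Ψ t).p) (Ici t) t :=
      deriv_of ht (fun s hs => (dist_move hL (s - t) (hG s hs).1 (hG t ht).1 (hG t ht).2).1) hc
    have d2 : HasDerivWithinAt (fun s => lft c.L (Φ s).q) (lft c.L (Ψ t).q) (Ici t) t :=
      deriv_of ht (fun s hs => (dist_move hL (s - t) (hG s hs).1 (hG t ht).1 (hG t ht).2).2.1) hc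
    have d3 : HasDerivWithinAt (fun s => lft c.L (Φ s).θ) (lft c.L (Ψ t).θ) (Ici t) t :=
      deriv_of ht (fun s hs => (dist_move hL (s - t) (hG s hs).1 (hG t ht).1 (hG t ht).2).2.2) hc
    exact d1.prodMk (d2.prodMk d3)

end Pool.Agent.T2H75.RB
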